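import Mathlib
import Pool.Agent.Helper278.DefsG
import Pool.Agent.Helper278.CEStmt

set_option autoImplicit false

open scoped InnerProductSpace Topology ComplexOrder
open Filter

namespace Pool.Agent.H734R2

open Pool.Agent.Helper278

/-- Kazhdan's property (T) of the discrete group `G`. -/
def IsKazhdan (G : Type) [Group G] : Prop :=
  ∃ (S : Finset G) (ε : ℝ), 0 < ε ∧ ∀ (E : Type) [NormedAddCommGroup E] [InnerProductSpace ℂ E]
    [CompleteSpace E] (ρ : G →* (E ≃ₗᵢ[ℂ] E)),
    (∃ ξ : E, ‖ξ‖ = 1 ∧ ∀ s ∈ S, ‖ρ s ξ - ξ‖ < ε) → ∃ η : E, η ≠ 0 ∧ ∀ g, ρ g η = η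

section abstract

variable {A B : Type} [Ring A] [StarRing A] [Algebra ℂ A] [Ring B] [StarRing B] [Algebra ℂ B]

/-- `f` is a unital star homomorphism. -/
structure IsStarHom (f : A → B) : Prop where
  one : f 1 = 1
  add : ∀ x y, f (x + y) = f x + f y
  mul : ∀ x y, f (x * y) = f x * f y
  smul : ∀ (c : ℂ) x, f (c • x) = c • f x
  star : ∀ x, f (Star.star x) = Star.star (f x)

/-- `φ` is completely positive: the matrices `(φ(x_i* x_j))` are positive, in the form
`∑ τ(y_i* φ(x_i* x_j) y_j) ≥ 0` for all finite families `x_i`, `y_i` of elements of `A` (with the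
order of `ℂ`: real and nonnegative). Here `τ` is a faithful trace. -/
def IsCompletelyPositive (τ : A → ℂ) (φ : A → A) : Prop :=
  ∀ (n : ℕ) (x y : Fin n → A), 0 ≤ ∑ i, ∑ j, τ (star (y i) * φ (star (x i) * x j) * y j)

/-- `φ` induces a compact operator on `L²(A, τ)`: the image under `φ` of the 2-norm unit ball of
`A` (which is dense in the unit ball of `L²`) is totally bounded in the 2-norm. -/
def IsCompactOnL2 (τ : A → ℂ) (φ : A → A) : Prop :=
  ∀ ε : ℝ, 0 < ε → ∃ S : Set A, S.Finite ∧ ∀ x, norm2 τ x ≤ 1 → ∃ y ∈ S, norm2 τ (φ x - y) < ε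

/-- The Haagerup property of `(A, τ)`, where `P ω` says that `ω` is a normal positive functional:
there is a net (here: a family with a proper filter `l` on its index set) of linear normal unital
trace preserving completely positive maps of `A`, each compact on `L²(A, τ)`, that converges to the
identity pointwise in the 2-norm. -/
def IsHaagerup (P : (A → ℂ) → Prop) (τ : A → ℂ) : Prop :=
  ∃ (I : Type) (l : Filter I) (φ : I → A → A), l.NeBot ∧
    (∀ i, IsLinearMap ℂ (φ i) ∧ φ i 1 = 1 ∧ (∀ x, τ (φ i x) = τ x) ∧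
      (∀ ω, P ω → P fun x => ω (φ i x)) ∧ IsCompletelyPositive τ (φ i) ∧
      IsCompactOnL2 τ (φ i)) ∧
    ∀ x, Tendsto (fun i => norm2 τ (φ i x - x)) l (𝓝 0)

/-- `l` assigns to the elements of `A` operators on the inner product space `E`, linearly, with
`l 1 = 1` and `l (x*) = (l x)*`, such that all functionals `x ↦ ⟨ξ, l(x) ξ⟩` are normal. -/
structure IsNormalAction {E : Type} [NormedAddCommGroup E] [InnerProductSpace ℂ E]
    (P : (A → ℂ) → Prop) (l : A → E → E) : Prop where
  linear : ∀ x, IsLinearMap ℂ (l x)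
  add : ∀ x y ξ, l (x + y) ξ = l x ξ + l y ξ
  smul : ∀ (c : ℂ) x ξ, l (c • x) ξ = c • l x ξ
  one : ∀ ξ, l 1 ξ = ξ
  star : ∀ x ξ η, ⟪l x ξ, η⟫_ℂ = ⟪ξ, l (Star.star x) η⟫_ℂ
  normal : ∀ ξ, P fun x => ⟪ξ, l x ξ⟫_ℂ

/-- `E` with the left action `l` and the right action `r` is a Hilbert `A`-`A` bimodule: `l` and
the right action `r` are normal unital star representations of `A` and of the opposite algebra of
`A` that commute. (The operators are bounded, as they have adjoints defined everywhere.) -/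
structure IsHilbertBimodule {E : Type} [NormedAddCommGroup E] [InnerProductSpace ℂ E]
    (P : (A → ℂ) → Prop) (l r : A → E → E) : Prop where
  left : IsNormalAction P l
  right : IsNormalAction P r
  left_mul : ∀ x y ξ, l (x * y) ξ = l x (l y ξ)
  right_mul : ∀ x y ξ, r (x * y) ξ = r y (r x ξ)
  comm : ∀ x y ξ, l x (r y ξ) = r y (l x ξ)

/-- Property (T) of Connes and Jones of `A`, where `P ω` says that `ω` is a normal positive
functional: there are a finite set `F ⊆ A` and `δ > 0` such that every Hilbert `A`-`A` bimodule with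
a unit vector `ξ` with `‖x ξ - ξ x‖ < δ` for all `x ∈ F` has a nonzero central vector `η`. -/
def IsPropertyT (P : (A → ℂ) → Prop) : Prop :=
  ∃ (F : Finset A) (δ : ℝ), 0 < δ ∧ ∀ (E : Type) [NormedAddCommGroup E] [InnerProductSpace ℂ E]
    [CompleteSpace E] (l r : A → E → E), IsHilbertBimodule P l r →
    (∃ ξ : E, ‖ξ‖ = 1 ∧ ∀ x ∈ F, ‖l x ξ - r x ξ‖ < δ) → ∃ η : E, η ≠ 0 ∧ ∀ x, l x η = r x η

end abstract

/-- The map `ι : A → B` is existential for `U`, where `τ`, `σ` are the traces of `A` and `B`: there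
is a unital trace preserving star homomorphism `θ` of `B` in the tracial ultrapower `(Q, φ)` of
`(A, τ)` along `U` whose composition with `ι` is the diagonal embedding of `A`. -/
def IsExistentialMap {A B : Type} [NormedRing A] [StarRing A] [NormedAlgebra ℂ A] [Ring B]
    [StarRing B] [Algebra ℂ B] (U : Ultrafilter ℕ) (τ : A → ℂ) (σ : B → ℂ) (ι : A → B) : Prop :=
  ∃ (Q : Type) (_ : Ring Q) (_ : StarRing Q) (_ : Algebra ℂ Q) (π : (ℕ → A) → Q) (φ : Q → ℂ)
    (θ : B → Q), CE.IsTracialUltrapower τ U π φ ∧ IsStarHom θ ∧ (∀ x, φ (θ x) = σ x) ∧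
      ∀ x, θ (ι x) = π (fun _ => x)

section vN

variable {H K : Type} [NormedAddCommGroup H] [InnerProductSpace ℂ H] [CompleteSpace H]
  [NormedAddCommGroup K] [InnerProductSpace ℂ K] [CompleteSpace K]

/-- The Haagerup property of the von Neumann algebra `N` with trace `τ`. -/
def HasHaagerupProperty (N : VonNeumannAlgebra H) (τ : Elt N → ℂ) : Prop :=
  IsHaagerup (IsNormalPositive N) τ

/-- Property (T) of the von Neumann algebra `M`. -/
def HasPropertyT (M : VonNeumannAlgebra H) : Prop := IsPropertyT (IsNormalPositive M)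

/-- `ι` is an embedding of `(N, τ)` in `(M, σ)`: a normal, trace preserving unital star
homomorphism (injective, as `τ` is faithful). -/
def IsEmbedding (N : VonNeumannAlgebra H) (M : VonNeumannAlgebra K) (τ : Elt N → ℂ)
    (σ : Elt M → ℂ) (ι : Elt N → Elt M) : Prop :=
  IsStarHom ι ∧ (∀ x, σ (ι x) = τ x) ∧
    ∀ ω, IsNormalPositive M ω → IsNormalPositive N fun x => ω (ι x)

/-- The embedding `ι` of `(N, τ)` in `(M, σ)` is existential for `U`. (Trace preserving unital star
homomorphisms between tracial von Neumann algebras are normal and injective.) -/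
def IsExistential (N : VonNeumannAlgebra H) (M : VonNeumannAlgebra K) (U : Ultrafilter ℕ)
    (τ : Elt N → ℂ) (σ : Elt M → ℂ) (ι : Elt N → Elt M) : Prop :=
  IsExistentialMap U τ σ ι

end vN

end Pool.Agent.H734R2
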