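import Mathlib
import Pool.Agent.Helper278.TB.Final
import Pool.Agent.Helper278.TB.PropT

set_option autoImplicit false

/-!
Truncations of the elements of the Kazhdan branch group `G K` and its locally finite subgroup of
finitary elements.
-/

namespace Pool.Agent.H734R2.Grp

open Pool.Agent.Helper278.TB

section

variable {K : Type} [Field K]

/-- `g` acts only on the first `n` letters -/
def Dep (n : ℕ) (g : Equiv.Perm (List (B K))) : Prop :=
  ∀ v w : List (B K), v.length = n → g (v ++ w) = g v ++ w

theorem Dep.mono {n m : ℕ} (h : n ≤ m) {g : Equiv.Perm (List (B K))} (hg : Dep n g) :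
    Dep m g := by
  intro v w hv
  have h1 : v = v.take n ++ v.drop n := (List.take_append_drop n v).symm
  have h2 : (v.take n).length = n := by
    rw [List.length_take]
    omega
  rw [h1, List.append_assoc, hg _ _ h2, hg _ _ h2, List.append_assoc]

theorem Dep.one : Dep 0 (1 : Equiv.Perm (List (B K))) := fun _ _ _ => rfl

theorem Dep.mul {n : ℕ} {g h : Equiv.Perm (List (B K))} (hg : Dep n g) (hh : Dep n h)
    (hl : ∀ w, (h w).length = w.length) : Dep n (g * h) := by
  intro v w hv
  rw [Equiv.Perm.mul_apply, Equiv.Perm.mul_apply, hh _ _ hv, hg _ _ (by rw [hl, hv])]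

theorem Dep.inv {n : ℕ} {g : Equiv.Perm (List (B K))} (hg : Dep n g)
    (hl : ∀ w, (g⁻¹ w).length = w.length) : Dep n g⁻¹ := by
  intro v w hv
  have h1 : g (g⁻¹ v) = v := g.apply_symm_apply v
  rw [Equiv.Perm.inv_eq_iff_eq, hg _ _ (by rw [hl, hv]), h1]

/-- the map underlying the truncation -/
def trf (n : ℕ) (g : Equiv.Perm (List (B K))) (w : List (B K)) : List (B K) :=
  g (w.take n) ++ w.drop n

theorem trf_mul (n : ℕ) (g h : Equiv.Perm (List (B K))) (hl : ∀ w, (h w).length = w.length)
    (w : List (B K)) : trf n g (trf n h w) = trf n (g * h) w := by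
  unfold trf
  rcases le_total n w.length with hw | hw
  · have h1 : (h (w.take n)).length = n := by
      rw [hl, List.length_take]
      omega
    rw [List.take_append_of_le_length (by omega), List.drop_append_of_le_length (by omega),
      List.take_of_length_le (by omega), List.drop_of_length_le (by omega)]
    rfl
  · rw [List.take_of_length_le hw, List.drop_of_length_le hw, List.append_nil,
      List.take_of_length_le (by rw [hl]; exact hw),
      List.drop_of_length_le (by rw [hl]; exact hw)]
    rfl

theorem trf_one (n : ℕ) (w : List (B K)) : trf n 1 w = w := List.take_append_drop n w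

theorem len (g : G K) (w : List (B K)) : ((g : Equiv.Perm (List (B K))) w).length = w.length :=
  G_length _ g.2 w

/-- truncation -/
def tr (n : ℕ) : G K →* Equiv.Perm (List (B K)) where
  toFun g :=
    { toFun := trf n g
      invFun := trf n (g⁻¹ : G K)
      left_inv := fun w => by
        rw [trf_mul n _ _ (len g), ← Subgroup.coe_mul, inv_mul_cancel]
        exact trf_one n w
      right_inv := fun w => by
        rw [trf_mul n _ _ (len g⁻¹), ← Subgroup.coe_mul, mul_inv_cancel]
        exact trf_one n w }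
  map_one' := Equiv.ext fun w => trf_one n w
  map_mul' g h := Equiv.ext fun w => (trf_mul n _ _ (len h) w).symm

theorem tr_apply (n : ℕ) (g : G K) (w : List (B K)) :
    tr n g w = (g : Equiv.Perm (List (B K))) (w.take n) ++ w.drop n := rfl

theorem tr_dep (n : ℕ) (g : G K) : Dep n (tr n g) := by
  intro v w hv
  rw [tr_apply, tr_apply, List.take_append_of_le_length (by omega),
    List.drop_append_of_le_length (by omega), List.take_of_length_le (by omega),
    List.drop_of_length_le (by omega), List.nil_append, List.append_nil]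

theorem tr_eq {n : ℕ} {g : G K} (h : Dep n (g : Equiv.Perm (List (B K)))) :
    tr n g = (g : Equiv.Perm (List (B K))) := by
  apply Equiv.ext
  intro w
  rw [tr_apply]
  rcases le_total n w.length with hw | hw
  · rw [← h _ _ (by rw [List.length_take]; omega), List.take_append_drop]
  · rw [List.take_of_length_le hw, List.drop_of_length_le hw, List.append_nil]

/-- `Lam` of a family in `Kg` -/
theorem Lam_mem [Fintype K] (φ : B K → Equiv.Perm (List (B K))) (h : ∀ b, φ b ∈ Kg K) :
    Lam φ ∈ Kg K := by
  classical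
  have key : ∀ S : Finset (B K), Lam (fun v => if v ∈ S then φ v else 1) ∈ Kg K := by
    intro S
    induction S using Finset.induction_on with
    | empty =>
      have h0 : (fun v : B K => if v ∈ (∅ : Finset (B K)) then φ v else 1) = fun _ => 1 := by
        funext v
        simp
      rw [h0, Lam_one]
      exact (Kg K).one_mem
    | insert b S hb ih =>
      have h1 : (fun v : B K => if v ∈ insert b S then φ v else 1) =
          fun v => (if v = b then φ b else 1) * (if v ∈ S then φ v else 1) := by
        funext v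
        by_cases hv : v = b
        · subst hv
          simp [hb]
        · by_cases hS : v ∈ S <;> simp [hv, hS]
      rw [h1, Lam_mul]
      refine (Kg K).mul_mem ?_ ih
      have h2 : Lam (fun v => if v = b then φ b else 1) = at' b (φ b) := by
        unfold at'
        congr 1
      rw [h2]
      exact at'_mem b _ (h b)
  have h3 := key Finset.univ
  simpa using h3

/-- cutting off a coefficient function -/
def cut (n : ℕ) (c : List (B K) → K) (h : List (B K)) : K := if h.length < n then c h else 0

theorem TP_cut_mem [Fintype K] (i : Fin 4) (j : Option (Fin 4)) (hij : j ≠ some i) (n : ℕ)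
    (c : List (B K) → K) : TP i j (cut n c) ∈ Kg K := by
  induction n generalizing c with
  | zero =>
    have h0 : cut 0 c = fun _ => 0 := by
      funext h
      simp [cut]
    rw [h0, TP_zero]
    exact (Kg K).one_mem
  | succ n ih =>
    rw [TP_rec]
    refine (Kg K).mul_mem ?_ ?_
    · rw [← R_eq]
      exact R_mem_Kg i j hij _
    · refine Lam_mem _ fun v => ?_
      have h1 : (fun h => cut (n + 1) c (v :: h)) = cut n (fun h => c (v :: h)) := by
        funext h
        simp [cut]
      rw [h1]
      exact ih _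

theorem T_cut (i : Fin 4) (j : Option (Fin 4)) (n : ℕ) (c : List (B K) → K) (w : List (B K)) :
    T i j (cut n c) w = T i j c (w.take n) ++ w.drop n := by
  induction n generalizing c w with
  | zero =>
    have h0 : cut 0 c = fun _ => 0 := by
      funext h
      simp [cut]
    rw [h0, T_zero]
    rfl
  | succ n ih =>
    cases w with
    | nil => rfl
    | cons v w =>
      have h1 : (fun h => cut (n + 1) c (v :: h)) = cut n (fun h => c (v :: h)) := by
        funext h
        simp [cut]
      have h2 : cut (n + 1) c [] = c [] := by simp [cut]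
      show el i j (cut (n + 1) c []) v :: T i j (fun h => cut (n + 1) c (v :: h)) w =
        el i j (c []) v :: (T i j (fun h => c (v :: h)) (w.take n) ++ w.drop n)
      rw [h1, h2, ih]

theorem tr_ln [Fintype K] (n : ℕ) (m : Fin 14) (t : K) (h : ln m t ∈ G K) :
    tr n ⟨ln m t, h⟩ ∈ Kg K := by
  have h1 : tr n ⟨ln m t, h⟩ = TP (data m).1 (data m).2.1
      (cut n (fun h => t * lf (data m).2.2 h)) := by
    apply Equiv.ext
    intro w
    exact (T_cut _ _ n _ w).symm
  rw [h1]
  exact TP_cut_mem _ _ (data_ne_836 m) n _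

theorem tr_mem [Fintype K] (n : ℕ) (g : G K) : tr n g ∈ Kg K := by
  obtain ⟨g, hg⟩ := g
  obtain ⟨h, h1⟩ := G_ind_h81 (fun g => ∃ h : g ∈ G K, tr n ⟨g, h⟩ ∈ Kg K)
    (fun m t => ⟨ln_mem m t, tr_ln n m t (ln_mem m t)⟩)
    ⟨(G K).one_mem, by
      have : tr n (⟨1, (G K).one_mem⟩ : G K) = 1 := map_one (tr n)
      rw [this]
      exact (Kg K).one_mem⟩
    (fun x y ⟨hx, hx1⟩ ⟨hy, hy1⟩ => ⟨(G K).mul_mem hx hy, by
      have : tr n (⟨x * y, (G K).mul_mem hx hy⟩ : G K) = tr n ⟨x, hx⟩ * tr n ⟨y, hy⟩ :=
        map_mul (tr n) ⟨x, hx⟩ ⟨y, hy⟩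
      rw [this]
      exact (Kg K).mul_mem hx1 hy1⟩) g hg
  exact h1

variable (K) in
/-- the finitary elements -/
def Hf : Subgroup (Equiv.Perm (List (B K))) where
  carrier := {g | g ∈ G K ∧ ∃ n, Dep n g}
  one_mem' := ⟨(G K).one_mem, 0, Dep.one⟩
  mul_mem' := by
    rintro a b ⟨ha, n, hn⟩ ⟨hb, m, hm⟩
    exact ⟨(G K).mul_mem ha hb, max n m,
      (hn.mono (le_max_left _ _)).mul (hm.mono (le_max_right _ _)) (G_length b hb)⟩
  inv_mem' := by
    rintro a ⟨ha, n, hn⟩
    exact ⟨(G K).inv_mem ha, n, hn.inv (G_length _ ((G K).inv_mem ha))⟩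

theorem mem_Hf (g : Equiv.Perm (List (B K))) : g ∈ Hf K ↔ g ∈ G K ∧ ∃ n, Dep n g := Iff.rfl

/-- the finitary elements of depth at most `n` -/
def Hn (n : ℕ) : Subgroup (Hf K) where
  carrier := {g | Dep n (g : Equiv.Perm (List (B K)))}
  one_mem' := (Dep.one.mono (Nat.zero_le n))
  mul_mem' := by
    intro a b ha hb
    exact Dep.mul ha hb (G_length _ b.2.1)
  inv_mem' := by
    intro a ha
    exact Dep.inv ha (G_length _ ((G K).inv_mem a.2.1))

theorem mem_Hn (n : ℕ) (g : Hf K) : g ∈ Hn n ↔ Dep n (g : Equiv.Perm (List (B K))) := Iff.rfl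

theorem Hn_mono : Monotone (Hn : ℕ → Subgroup (Hf K)) := fun _ _ h _ hg => Dep.mono h hg

theorem exists_Hn (g : Hf K) : ∃ n, g ∈ Hn n := g.2.2

theorem Hn_finite [Fintype K] (n : ℕ) : Finite (Hn n : Subgroup (Hf K)) := by
  classical
  have hfin : Finite {v : List (B K) // v.length ≤ n} :=
    (List.finite_length_le (B K) n).to_subtype
  have hinj : Function.Injective (fun (g : (Hn n : Subgroup (Hf K)))
      (v : {v : List (B K) // v.length ≤ n}) =>
        (⟨((g : Hf K) : Equiv.Perm (List (B K))) v.1, by
          rw [G_length _ (g : Hf K).2.1]; exact v.2⟩ : {v : List (B K) // v.length ≤ n})) := by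
    intro g h hgh
    apply Subtype.ext
    apply Subtype.ext
    apply Equiv.ext
    intro w
    have key : ∀ v : List (B K), v.length ≤ n →
        ((g : Hf K) : Equiv.Perm (List (B K))) v = ((h : Hf K) : Equiv.Perm (List (B K))) v := by
      intro v hv
      exact congrArg Subtype.val (congrFun hgh ⟨v, hv⟩)
    rcases le_total n w.length with hw | hw
    · have hl : (w.take n).length = n := by
        rw [List.length_take]
        omega
      have h1 := g.2 (w.take n) (w.drop n) hl
      have h2 := h.2 (w.take n) (w.drop n) hl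
      rw [List.take_append_drop] at h1 h2
      rw [h1, h2, key _ hl.le]
    · exact key w hw
  exact Finite.of_injective _ hinj

/-- the inclusion -/
def inc : Hf K →* G K := Subgroup.inclusion fun _ h => h.1

theorem inc_inj : Function.Injective (inc : Hf K →* G K) := Subgroup.inclusion_injective _

theorem inc_coe (h : Hf K) : ((inc h : G K) : Equiv.Perm (List (B K))) = h := rfl

/-- truncation as a homomorphism in the finitary elements -/
def trH [Fintype K] (n : ℕ) : G K →* Hf K :=
  (tr n).codRestrict (Hf K) fun g => ⟨Kg_le (tr_mem n g), n, tr_dep n g⟩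

theorem trH_coe [Fintype K] (n : ℕ) (g : G K) :
    ((trH n g : Hf K) : Equiv.Perm (List (B K))) = tr n g := rfl

theorem trH_inc [Fintype K] (h : Hf K) : ∀ᶠ n in Filter.atTop, trH n (inc h) = h := by
  obtain ⟨m, hm⟩ := h.2.2
  filter_upwards [Filter.eventually_ge_atTop m] with n hn
  apply Subtype.ext
  rw [trH_coe]
  exact tr_eq (hm.mono hn)

theorem trH_ne [Fintype K] (g : G K) (hg : g ≠ 1) : ∀ᶠ n in Filter.atTop, trH n g ≠ 1 := by
  have h1 : ∃ w, (g : Equiv.Perm (List (B K))) w ≠ w := by
    by_contra h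
    push Not at h
    exact hg (Subtype.ext (Equiv.ext h))
  obtain ⟨w, hw⟩ := h1
  filter_upwards [Filter.eventually_ge_atTop w.length] with n hn
  intro h
  apply hw
  have h2 := congrArg (fun z : Hf K => (z : Equiv.Perm (List (B K))) w) h
  have h3 : tr n g w = w := h2
  rw [tr_apply, List.take_of_length_le hn, List.drop_of_length_le hn, List.append_nil] at h3
  exact h3

/-! conjugacy classes -/

theorem not_prefix_of_ne (v v' w : List (B K)) (hl : v'.length = v.length) (hne : v' ≠ v) :
    ¬ v <+: v' ++ w := by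
  intro h
  have h1 := (List.prefix_iff_eq_take.mp h)
  rw [← hl, List.take_append_of_le_length le_rfl, List.take_length] at h1
  exact hne h1.symm

theorem conj_apply [Fintype K] (g : Equiv.Perm (List (B K))) (hg : g ∈ G K) (v : List (B K))
    (hv : g v ≠ v) (k : Equiv.Perm (List (B K))) (w : List (B K)) :
    (atw v k * g * (atw v k)⁻¹) (v ++ w) = g (v ++ k⁻¹ w) := by
  have h1 : (atw v k)⁻¹ (v ++ w) = v ++ k⁻¹ w := by
    have h0 : k (k⁻¹ w) = w := k.apply_symm_apply w
    rw [Equiv.Perm.inv_eq_iff_eq, atw_apply, h0]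
  rw [Equiv.Perm.mul_apply, Equiv.Perm.mul_apply, h1]
  obtain ⟨s, hs, h2⟩ := sec g hg v
  rw [h2]
  exact atw_apply_of _ _ _ (not_prefix_of_ne v (g v) _ (G_length g hg v) hv)

theorem conj_inj [Fintype K] (g : Equiv.Perm (List (B K))) (hg : g ∈ G K) (v : List (B K))
    (hv : g v ≠ v) (k k' : Equiv.Perm (List (B K)))
    (h : atw v k * g * (atw v k)⁻¹ = atw v k' * g * (atw v k')⁻¹) : k = k' := by
  have h1 : k⁻¹ = k'⁻¹ := by
    apply Equiv.ext
    intro w
    have h2 := conj_apply g hg v hv k w
    rw [h, conj_apply g hg v hv k' w] at h2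
    exact (List.append_cancel_left (g.injective h2)).symm
  exact inv_injective h1

theorem atw_dep (n : ℕ) (v : List (B K)) (k : Equiv.Perm (List (B K))) (hk : Dep n k) :
    Dep (v.length + n) (atw v k) := by
  intro a w ha
  by_cases h : v <+: a
  · obtain ⟨t, rfl⟩ := h
    rw [List.append_assoc, atw_apply, atw_apply, hk _ _ (by
      rw [List.length_append] at ha
      omega), List.append_assoc]
  · rw [atw_apply_of _ _ _ h, atw_apply_of]
    intro h2
    apply h
    have h3 := List.prefix_iff_eq_take.mp h2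
    rw [List.take_append_of_le_length (by omega)] at h3
    rw [h3]
    exact List.take_prefix _ _

theorem atw_Hf [Fintype K] (v : List (B K)) (k : Equiv.Perm (List (B K))) (hk : k ∈ Hf K) :
    atw v k ∈ Hf K := by
  obtain ⟨h1, n, hn⟩ := hk
  have h2 : k ∈ Kg K := by
    have := tr_mem n ⟨k, h1⟩
    rwa [tr_eq (g := ⟨k, h1⟩) hn] at this
  exact ⟨Kg_le (atw_mem v k h2), _, atw_dep n v k hn⟩

/-- an element of depth one -/
def r0 : Equiv.Perm (List (B K)) := R 0 none 1

theorem r0_apply (v : B K) (w : List (B K)) : r0 (v :: w) = el 0 none 1 v :: w := by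
  unfold r0
  rw [R_eq]
  rfl

theorem r0_mem : (r0 : Equiv.Perm (List (B K))) ∈ Hf K := by
  refine ⟨Kg_le (R_mem_Kg 0 none (by simp) 1), 1, ?_⟩
  intro v w hv
  obtain ⟨b, rfl⟩ := List.length_eq_one_iff.mp hv
  show r0 (b :: w) = r0 [b] ++ w
  rw [r0_apply, r0_apply]
  rfl

theorem el_ne (v : B K) : el 0 none 1 v ≠ v := by
  intro h
  have h1 := congrFun h 0
  simp [el, cf] at h1

/-- `r0` at the vertex `0^n` -/
noncomputable def rr (n : ℕ) : Equiv.Perm (List (B K)) := atw (List.replicate n 0) r0

theorem rr_mem [Fintype K] (n : ℕ) : (rr n : Equiv.Perm (List (B K))) ∈ Hf K :=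
  atw_Hf _ _ r0_mem

theorem rr_inj : Function.Injective (rr : ℕ → Equiv.Perm (List (B K))) := by
  have key : ∀ n m : ℕ, n < m → (rr n : Equiv.Perm (List (B K))) ≠ rr m := by
    intro n m hnm h
    have h1 : (rr n : Equiv.Perm (List (B K))) (List.replicate n 0 ++ [0]) =
        List.replicate n 0 ++ [el 0 none 1 0] := by
      unfold rr
      rw [atw_apply, r0_apply]
    have h2 : (rr m : Equiv.Perm (List (B K))) (List.replicate n 0 ++ [0]) =
        List.replicate n 0 ++ [0] := by
      have hrep : (List.replicate n (0 : B K)) ++ [0] = List.replicate (n + 1) 0 := by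
        rw [List.replicate_succ']
      rw [hrep]
      unfold rr
      rcases eq_or_lt_of_le (Nat.succ_le_of_lt hnm) with he | hlt
      · have h3 : List.replicate (n + 1) (0 : B K) = List.replicate m 0 ++ [] := by
          rw [List.append_nil, ← he]
        rw [h3, atw_apply]
        have h4 : (r0 : Equiv.Perm (List (B K))) [] = [] := G_nil _ r0_mem.1
        rw [h4]
      · apply atw_apply_of
        intro hp
        have := hp.length_le
        rw [List.length_replicate, List.length_replicate] at this
        omega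
    rw [← h, h1] at h2
    have h5 := List.append_cancel_left h2
    exact el_ne 0 (List.singleton_inj.mp h5)
  intro n m h
  rcases lt_trichotomy n m with h1 | h1 | h1
  · exact absurd h (key n m h1)
  · exact h1
  · exact absurd h.symm (key m n h1)

theorem Hf_infinite [Fintype K] : Infinite (Hf K) :=
  Infinite.of_injective (fun n : ℕ => (⟨rr n, rr_mem n⟩ : Hf K)) fun n m h =>
    rr_inj (congrArg Subtype.val h)

theorem G_infinite [Fintype K] : Infinite (G K) :=
  have := Hf_infinite (K := K)
  Infinite.of_injective (inc : Hf K → G K) inc_inj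

theorem exists_moved (g : Equiv.Perm (List (B K))) (hg : g ≠ 1) : ∃ v, g v ≠ v := by
  by_contra h
  push Not at h
  exact hg (Equiv.ext h)

theorem icc_Hf [Fintype K] (g : Hf K) (hg : g ≠ 1) :
    (Set.range fun h : Hf K => h * g * h⁻¹).Infinite := by
  obtain ⟨v, hv⟩ := exists_moved (g : Equiv.Perm (List (B K))) fun h => hg (Subtype.ext h)
  let f : ℕ → Hf K := fun n => ⟨atw v (rr n), atw_Hf v _ (rr_mem n)⟩
  refine Set.infinite_of_injective_forall_mem (f := fun n => f n * g * (f n)⁻¹) ?_
    fun n => ⟨f n, rfl⟩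
  intro n m h
  exact rr_inj (conj_inj _ g.2.1 v hv _ _ (congrArg Subtype.val h))

theorem icc_G [Fintype K] (g : G K) (hg : g ≠ 1) :
    (Set.range fun h : G K => h * g * h⁻¹).Infinite := by
  obtain ⟨v, hv⟩ := exists_moved (g : Equiv.Perm (List (B K))) fun h => hg (Subtype.ext h)
  let f : ℕ → G K := fun n => ⟨atw v (rr n), (atw_Hf v _ (rr_mem n)).1⟩
  refine Set.infinite_of_injective_forall_mem (f := fun n => f n * g * (f n)⁻¹) ?_
    fun n => ⟨f n, rfl⟩
  intro n m h
  exact rr_inj (conj_inj _ g.2 v hv _ _ (congrArg Subtype.val h))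

end

/-- Kazhdan's property (T). -/
def IsKazhdan (G : Type) [Group G] : Prop :=
  ∃ S : Finset G, ∃ ε : ℝ, 0 < ε ∧
    ∀ (H : Type) [NormedAddCommGroup H] [InnerProductSpace ℂ H] [CompleteSpace H]
      (ρ : G →* unitary (H →L[ℂ] H)),
      (∃ x : H, ‖x‖ = 1 ∧ ∀ s ∈ S, ‖(ρ s : H →L[ℂ] H) x - x‖ < ε) →
        ∃ x : H, x ≠ 0 ∧ ∀ g : G, (ρ g : H →L[ℂ] H) x = x

/-- The groups. -/
theorem exists_groups : ∃ (H G : Type) (_ : Group H) (_ : Group G) (i : H →* G)
    (q : ℕ → (G →* H)) (F : ℕ → Subgroup H), Function.Injective i ∧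
      (∀ h, ∀ᶠ n in Filter.atTop, q n (i h) = h) ∧
      (∀ g : G, g ≠ 1 → ∀ᶠ n in Filter.atTop, q n g ≠ 1) ∧
      Infinite H ∧ Infinite G ∧
      (∀ h : H, h ≠ 1 → (Set.range fun k : H => k * h * k⁻¹).Infinite) ∧
      (∀ g : G, g ≠ 1 → (Set.range fun k : G => k * g * k⁻¹).Infinite) ∧
      Monotone F ∧ (∀ n, Finite (F n)) ∧ (∀ h, ∃ n, h ∈ F n) ∧ IsKazhdan G := by
  have : Fact (Nat.Prime 257) := ⟨by norm_num⟩
  refine ⟨Hf (ZMod 257), G (ZMod 257), inferInstance, inferInstance, inc, trH, Hn, inc_inj,
    trH_inc, trH_ne, Hf_infinite, G_infinite, icc_Hf, icc_G, Hn_mono, Hn_finite, exists_Hn,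
    propT_G (by rw [ZMod.card]; norm_num) ln_add pair_all⟩

end Pool.Agent.H734R2.Grp
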