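import Mathlib
import Pool.Agent.H734R2.Defs
import Pool.Agent.H734R2.Grp
import Pool.Agent.H734R2.Hom
import Pool.Agent.Helper278.RGKap

set_option autoImplicit false
set_option linter.unusedSectionVars false

open scoped InnerProductSpace Topology ComplexOrder
open Filter

namespace Pool.Agent.H734R2

open Pool.Agent.Helper278 Pool.Agent.Helper278.RG

section

variable {G : Type} [Group G] {K : Type} [NormedAddCommGroup K] [InnerProductSpace ℂ K]
  [CompleteSpace K] (b : HilbertBasis G ℂ K)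

theorem twoNorm_N2 : TwoNorm (N2 b) where
  nonneg x := norm_nonneg _
  add := N2_add b
  smul c x := by
    show ‖c • (x : K →L[ℂ] K) (b 1)‖ = _
    rw [norm_smul]
    rfl
  left := N2_left b
  right := N2_right b
  star := N2_star b
  le := N2_le b

/-- bounded approximation by elements of the group algebra -/
theorem exists_approx (x : Elt (LK b)) : ∃ a : ℕ → Elt (LK b), (∀ n, a n ∈ CGsub b) ∧
    (∀ n, ‖a n‖ ≤ 2 * (‖x‖ + 1)) ∧ Tendsto (fun n => N2 b (x - a n)) atTop (𝓝 0) := by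
  set c : ℝ := ‖x‖ + 1 with hc
  have hc0 : 0 < c := by positivity
  have hx : ‖((c⁻¹ : ℝ) : ℂ) • x‖ ≤ 1 := by
    rw [norm_smul, Complex.norm_real, Real.norm_eq_abs, abs_of_pos (by positivity),
      inv_mul_le_iff₀ hc0, mul_one]
    linarith
  have h := fun n : ℕ => kaplansky (twoNorm_N2 b) (CGsub b)
    (fun x ε hε => dense_CG b x ε hε) (((c⁻¹ : ℝ) : ℂ) • x) hx (1 / ((n : ℝ) + 1)) (by positivity)
  choose a ha1 ha2 ha3 using h
  have hcc : ((c : ℝ) : ℂ) * ((c⁻¹ : ℝ) : ℂ) = 1 := by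
    rw [← Complex.ofReal_mul, mul_inv_cancel₀ hc0.ne', Complex.ofReal_one]
  refine ⟨fun n => (c : ℂ) • a n, fun n => (CGsub b).smul_mem (ha1 n) _, fun n => ?_, ?_⟩
  · rw [norm_smul, Complex.norm_real, Real.norm_eq_abs, abs_of_pos hc0, mul_comm]
    exact mul_le_mul_of_nonneg_right (ha2 n) hc0.le
  · have h1 : ∀ n, N2 b (x - (c : ℂ) • a n) ≤ c * (1 / ((n : ℝ) + 1)) := by
      intro n
      have e : x - (c : ℂ) • a n = (c : ℂ) • (((c⁻¹ : ℝ) : ℂ) • x - a n) := by
        rw [smul_sub, smul_smul, hcc, one_smul]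
      rw [e, (twoNorm_N2 b).smul, Complex.norm_real, Real.norm_eq_abs, abs_of_pos hc0]
      exact mul_le_mul_of_nonneg_left (ha3 n).le hc0.le
    refine squeeze_zero (fun n => norm_nonneg _) h1 ?_
    have := (tendsto_one_div_add_atTop_nhds_zero_nat (𝕜 := ℝ)).const_mul c
    rwa [mul_zero] at this

/-- 2-norm convergence of bounded sequences implies strong convergence -/
theorem strong_of_N2 (y : ℕ → Elt (LK b)) (C : ℝ) (hC : ∀ n, ‖y n‖ ≤ C)
    (h : Tendsto (fun n => N2 b (y n)) atTop (𝓝 0)) (ξ : K) :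
    Tendsto (fun n => ‖(y n : K →L[ℂ] K) ξ‖) atTop (𝓝 0) := by
  have hC0 : 0 ≤ C := (norm_nonneg _).trans (hC 0)
  have hle : ∀ n v, ‖(y n : K →L[ℂ] K) v‖ ≤ C * ‖v‖ := fun n v =>
    ((y n : K →L[ℂ] K).le_opNorm v).trans (mul_le_mul_of_nonneg_right (hC n) (norm_nonneg _))
  let S : Submodule ℂ K :=
    { carrier := {ξ | Tendsto (fun n => (y n : K →L[ℂ] K) ξ) atTop (𝓝 0)}
      zero_mem' := by simp
      add_mem' := by
        intro v w hv hw
        have := Tendsto.add hv hw
        simpa using this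
      smul_mem' := by
        intro c v hv
        have := Tendsto.const_smul hv c
        simpa using this }
  have hS : ∀ v, v ∈ S ↔ Tendsto (fun n => (y n : K →L[ℂ] K) v) atTop (𝓝 0) := fun v => Iff.rfl
  have hb : ∀ g, b g ∈ S := by
    intro g
    rw [hS, tendsto_zero_iff_norm_tendsto_zero]
    refine h.congr fun n => ?_
    have h1 : b g = rhoK b g⁻¹ (b 1) := by
      unfold rhoK
      rw [permK_basis]
      congr 1
      show g = 1 * (g⁻¹)⁻¹
      group
    have h2 := congrArg (fun z : K →L[ℂ] K => z (b 1)) (comm_right b _ (y n).2 g⁻¹)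
    have h3 : rhoK b g⁻¹ ((y n : K →L[ℂ] K) (b 1)) = (y n : K →L[ℂ] K) (rhoK b g⁻¹ (b 1)) := h2
    rw [h1, ← h3]
    have h4 : ∀ v, ‖rhoK b g⁻¹ v‖ = ‖v‖ := by
      intro v
      have h5 : star (rhoK b g⁻¹) * rhoK b g⁻¹ = 1 := by
        unfold rhoK
        rw [star_permK, permK_mul]
        have : (Equiv.mulRight g⁻¹).symm.trans (Equiv.mulRight g⁻¹) = Equiv.refl G :=
          Equiv.symm_trans_self _
        rw [this, permK_refl]
      have h6 : ‖rhoK b g⁻¹ v‖ ^ 2 = ‖v‖ ^ 2 := by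
        have h7 : ⟪rhoK b g⁻¹ v, rhoK b g⁻¹ v⟫_ℂ = ⟪v, v⟫_ℂ := by
          rw [← ContinuousLinearMap.adjoint_inner_right, ← ContinuousLinearMap.star_eq_adjoint]
          show ⟪v, (star (rhoK b g⁻¹) * rhoK b g⁻¹) v⟫_ℂ = _
          rw [h5]
          rfl
        rw [inner_self_eq_norm_sq_to_K, inner_self_eq_norm_sq_to_K] at h7
        exact_mod_cast h7
      exact (pow_left_inj₀ (norm_nonneg _) (norm_nonneg _) two_ne_zero).1 h6
    rw [h4]
    rfl
  have hcl : IsClosed (S : Set K) := by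
    rw [← isSeqClosed_iff_isClosed]
    intro v w hv hw
    show Tendsto (fun n => (y n : K →L[ℂ] K) w) atTop (𝓝 0)
    rw [Metric.tendsto_atTop] at hw ⊢
    intro ε hε
    obtain ⟨m, hm⟩ := hw (ε / (2 * (C + 1))) (by positivity)
    have h1 := hv m
    rw [SetLike.mem_coe, hS, Metric.tendsto_atTop] at h1
    obtain ⟨N, hN⟩ := h1 (ε / 2) (by positivity)
    refine ⟨N, fun n hn => ?_⟩
    have h2 := hN n hn
    have h3 := hm m le_rfl
    rw [dist_zero_right] at h2 ⊢
    rw [dist_eq_norm, ← norm_neg, neg_sub] at h3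
    have h4 : (y n : K →L[ℂ] K) w = (y n : K →L[ℂ] K) (w - v m) + (y n : K →L[ℂ] K) (v m) := by
      rw [map_sub]
      abel
    rw [h4]
    refine (norm_add_le _ _).trans_lt ?_
    have h5 := hle n (w - v m)
    have h6 : C * ‖w - v m‖ ≤ ε / 2 := by
      calc C * ‖w - v m‖ ≤ (C + 1) * (ε / (2 * (C + 1))) := by
            apply mul_le_mul (by linarith) h3.le (norm_nonneg _) (by linarith)
        _ = ε / 2 := by field_simp
    linarith
  have htop : ξ ∈ S := by
    have h1 : (Submodule.span ℂ (Set.range b)).topologicalClosure ≤ S :=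
      Submodule.topologicalClosure_minimal _ (by
        rw [Submodule.span_le]
        rintro _ ⟨g, rfl⟩
        exact hb g) hcl
    rw [b.dense_span] at h1
    exact h1 Submodule.mem_top
  exact tendsto_zero_iff_norm_tendsto_zero.1 htop

/-- normal positive functionals are continuous on bounded sets -/
theorem normal_tendsto (ω : Elt (LK b) → ℂ) (hω : IsNormalPositive (LK b) ω)
    (y : ℕ → Elt (LK b)) (C : ℝ) (hC : ∀ n, ‖y n‖ ≤ C)
    (h : Tendsto (fun n => N2 b (y n)) atTop (𝓝 0)) :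
    Tendsto (fun n => ω (star (y n) * y n)) atTop (𝓝 0) := by
  obtain ⟨ξ, hξ, hωξ⟩ := hω
  have hC0 : 0 ≤ C := (norm_nonneg _).trans (hC 0)
  have h1 : ∀ n, ω (star (y n) * y n) = ∑' k, ((‖(y n : K →L[ℂ] K) (ξ k)‖ ^ 2 : ℝ) : ℂ) := by
    intro n
    rw [hωξ]
    refine tsum_congr fun k => ?_
    have e : ⟪ξ k, ((star (y n) * y n : Elt (LK b)) : K →L[ℂ] K) (ξ k)⟫_ℂ =
        ⟪(y n : K →L[ℂ] K) (ξ k), (y n : K →L[ℂ] K) (ξ k)⟫_ℂ := by
      rw [← ContinuousLinearMap.adjoint_inner_right, ← ContinuousLinearMap.star_eq_adjoint]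
      rfl
    rw [e, inner_self_eq_norm_sq_to_K]
    push_cast
    rfl
  have h2 : Tendsto (fun n => ∑' k, ((‖(y n : K →L[ℂ] K) (ξ k)‖ ^ 2 : ℝ) : ℂ)) atTop
      (𝓝 (∑' _ : ℕ, (0 : ℂ))) := by
    refine tendsto_tsum_of_dominated_convergence (bound := fun k => C ^ 2 * ‖ξ k‖ ^ 2)
      (hξ.mul_left _) (fun k => ?_) (Eventually.of_forall fun n k => ?_)
    · have h3 := (strong_of_N2 b y C hC h (ξ k)).pow 2
      rw [zero_pow two_ne_zero] at h3
      have h4 := (Complex.continuous_ofReal.tendsto 0).comp h3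
      rwa [Complex.ofReal_zero] at h4
    · rw [Complex.norm_real, Real.norm_eq_abs, abs_of_nonneg (sq_nonneg _), ← mul_pow]
      exact pow_le_pow_left₀ (norm_nonneg _)
        (((y n : K →L[ℂ] K).le_opNorm (ξ k)).trans
          (mul_le_mul_of_nonneg_right (hC n) (norm_nonneg _))) 2
  rw [tsum_zero] at h2
  exact h2.congr fun n => (h1 n).symm

variable {E : Type} [NormedAddCommGroup E] [InnerProductSpace ℂ E] [CompleteSpace E]
  {l r : Elt (LK b) → E → E}

theorem inner_l (B : IsHilbertBimodule (IsNormalPositive (LK b)) l r) (y : Elt (LK b)) (η : E) :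
    ⟪η, l (star y * y) η⟫_ℂ = ((‖l y η‖ ^ 2 : ℝ) : ℂ) := by
  rw [B.left_mul, ← B.left.star, inner_self_eq_norm_sq_to_K]
  push_cast
  rfl

theorem inner_r (B : IsHilbertBimodule (IsNormalPositive (LK b)) l r) (y : Elt (LK b)) (η : E) :
    ⟪η, r (y * star y) η⟫_ℂ = ((‖r y η‖ ^ 2 : ℝ) : ℂ) := by
  rw [B.right_mul, ← B.right.star, inner_self_eq_norm_sq_to_K]
  push_cast
  rfl

theorem action_zero (A : IsNormalAction (IsNormalPositive (LK b)) l) (ξ : E) : l 0 ξ = 0 := by
  have h := A.smul 0 0 ξ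
  rwa [zero_smul, zero_smul] at h

theorem action_sub (A : IsNormalAction (IsNormalPositive (LK b)) l) (x y : Elt (LK b)) (ξ : E) :
    l (x - y) ξ = l x ξ - l y ξ := by
  have h := A.add (x - y) y ξ
  rw [sub_add_cancel] at h
  rw [h]
  abel

/-- A vector commuting with the group commutes with the von Neumann algebra. -/
theorem central_of_group (B : IsHilbertBimodule (IsNormalPositive (LK b)) l r) (η : E)
    (h : ∀ g, l (La b g) η = r (La b g) η) (x : Elt (LK b)) : l x η = r x η := by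
  have hsum : ∀ (A : Elt (LK b) → E → E) (_ : IsNormalAction (IsNormalPositive (LK b)) A)
      (s : Finset G) (c : G → ℂ), A (∑ g ∈ s, c g • La b g) η = ∑ g ∈ s, c g • A (La b g) η := by
    classical
    intro A hA s c
    induction s using Finset.induction_on with
    | empty => rw [Finset.sum_empty, Finset.sum_empty, action_zero b hA]
    | insert g s hg ih =>
      rw [Finset.sum_insert hg, Finset.sum_insert hg, hA.add, hA.smul, ih]
  have hCG : ∀ a ∈ CGsub b, l a η = r a η := by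
    rintro a ha
    obtain ⟨v, rfl⟩ := (mem_CGsub b a).1 ha
    rw [Lop_apply]
    unfold Finsupp.sum
    rw [hsum l B.left, hsum r B.right]
    exact Finset.sum_congr rfl fun g _ => by rw [h]
  obtain ⟨a, ha1, ha2, ha3⟩ := exists_approx b x
  have hb1 : ∀ n, ‖x - a n‖ ≤ ‖x‖ + 2 * (‖x‖ + 1) := fun n =>
    (norm_sub_le _ _).trans (by linarith [ha2 n])
  have hb2 : ∀ n, ‖star (x - a n)‖ ≤ ‖x‖ + 2 * (‖x‖ + 1) := fun n => by
    rw [norm_star]
    exact hb1 n
  have hl : Tendsto (fun n => ‖l (x - a n) η‖ ^ 2) atTop (𝓝 0) := by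
    have h1 := normal_tendsto b _ (B.left.normal η) (fun n => x - a n) _ hb1 ha3
    have h2 := (Complex.continuous_re.tendsto 0).comp h1
    refine h2.congr fun n => ?_
    show (⟪η, l (star (x - a n) * (x - a n)) η⟫_ℂ).re = _
    rw [inner_l b B, Complex.ofReal_re]
  have hr : Tendsto (fun n => ‖r (x - a n) η‖ ^ 2) atTop (𝓝 0) := by
    have h0 : Tendsto (fun n => N2 b (star (x - a n))) atTop (𝓝 0) := by
      refine ha3.congr fun n => ?_
      rw [N2_star]
    have h1 := normal_tendsto b _ (B.right.normal η) (fun n => star (x - a n)) _ hb2 h0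
    have h2 := (Complex.continuous_re.tendsto 0).comp h1
    refine h2.congr fun n => ?_
    show (⟪η, r (star (star (x - a n)) * star (x - a n)) η⟫_ℂ).re = _
    rw [star_star, inner_r b B, Complex.ofReal_re]
  have key : ∀ n, ‖l x η - r x η‖ ^ 2 ≤ 2 * (‖l (x - a n) η‖ ^ 2 + ‖r (x - a n) η‖ ^ 2) := by
    intro n
    have e : l x η - r x η = l (x - a n) η - r (x - a n) η := by
      rw [action_sub b B.left, action_sub b B.right, hCG _ (ha1 n)]
      abel
    rw [e]
    have h1 := norm_sub_le (l (x - a n) η) (r (x - a n) η)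
    have h2 := norm_nonneg (l (x - a n) η - r (x - a n) η)
    nlinarith [sq_nonneg (‖l (x - a n) η‖ - ‖r (x - a n) η‖)]
  have h3 : Tendsto (fun n => 2 * (‖l (x - a n) η‖ ^ 2 + ‖r (x - a n) η‖ ^ 2)) atTop (𝓝 0) := by
    have := (hl.add hr).const_mul 2
    simpa using this
  have h4 : ‖l x η - r x η‖ ^ 2 ≤ 0 := ge_of_tendsto h3 (Eventually.of_forall key)
  have h5 : ‖l x η - r x η‖ = 0 := by
    have := norm_nonneg (l x η - r x η)
    nlinarith
  exact sub_eq_zero.1 (norm_eq_zero.1 h5)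

theorem La_inv_mul (g : G) : La b g⁻¹ * La b g = 1 := by
  rw [La_mul, inv_mul_cancel, La_one]

theorem La_mul_inv (g : G) : La b g * La b g⁻¹ = 1 := by
  rw [La_mul, mul_inv_cancel, La_one]

theorem norm_l (B : IsHilbertBimodule (IsNormalPositive (LK b)) l r) (g : G) (ξ : E) :
    ‖l (La b g) ξ‖ = ‖ξ‖ := by
  have h := inner_l b B (La b g) ξ
  rw [star_La, La_inv_mul, B.left.one, inner_self_eq_norm_sq_to_K] at h
  have h2 : ‖ξ‖ ^ 2 = ‖l (La b g) ξ‖ ^ 2 := by
    apply Complex.ofReal_injective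
    rw [← h]
    push_cast
    rfl
  exact ((pow_left_inj₀ (norm_nonneg _) (norm_nonneg _) two_ne_zero).1 h2).symm

theorem norm_r (B : IsHilbertBimodule (IsNormalPositive (LK b)) l r) (g : G) (ξ : E) :
    ‖r (La b g) ξ‖ = ‖ξ‖ := by
  have h := inner_r b B (La b g) ξ
  rw [star_La, La_mul_inv, B.right.one, inner_self_eq_norm_sq_to_K] at h
  have h2 : ‖ξ‖ ^ 2 = ‖r (La b g) ξ‖ ^ 2 := by
    apply Complex.ofReal_injective
    rw [← h]
    push_cast
    rfl
  exact ((pow_left_inj₀ (norm_nonneg _) (norm_nonneg _) two_ne_zero).1 h2).symm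

theorem l_inv (B : IsHilbertBimodule (IsNormalPositive (LK b)) l r) (g : G) (ξ : E) :
    l (La b g⁻¹) (l (La b g) ξ) = ξ := by
  rw [← B.left_mul, La_inv_mul, B.left.one]

theorem l_inv' (B : IsHilbertBimodule (IsNormalPositive (LK b)) l r) (g : G) (ξ : E) :
    l (La b g) (l (La b g⁻¹) ξ) = ξ := by
  rw [← B.left_mul, La_mul_inv, B.left.one]

theorem r_inv (B : IsHilbertBimodule (IsNormalPositive (LK b)) l r) (g : G) (ξ : E) :
    r (La b g) (r (La b g⁻¹) ξ) = ξ := by
  rw [← B.right_mul, La_inv_mul, B.right.one]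

theorem r_inv' (B : IsHilbertBimodule (IsNormalPositive (LK b)) l r) (g : G) (ξ : E) :
    r (La b g⁻¹) (r (La b g) ξ) = ξ := by
  rw [← B.right_mul, La_mul_inv, B.right.one]

/-- the conjugation operators -/
noncomputable def conjOp (B : IsHilbertBimodule (IsNormalPositive (LK b)) l r) (g : G) :
    E ≃ₗᵢ[ℂ] E where
  toFun ξ := l (La b g) (r (La b g⁻¹) ξ)
  invFun ξ := l (La b g⁻¹) (r (La b g) ξ)
  map_add' ξ η := by
    rw [(B.right.linear _).map_add, (B.left.linear _).map_add]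
  map_smul' c ξ := by
    rw [(B.right.linear _).map_smul, (B.left.linear _).map_smul]
    rfl
  left_inv ξ := by
    show l (La b g⁻¹) (r (La b g) (l (La b g) (r (La b g⁻¹) ξ))) = ξ
    rw [← B.comm, l_inv b B, r_inv b B]
  right_inv ξ := by
    show l (La b g) (r (La b g⁻¹) (l (La b g⁻¹) (r (La b g) ξ))) = ξ
    rw [← B.comm, l_inv' b B, r_inv' b B]
  norm_map' ξ := by
    show ‖l (La b g) (r (La b g⁻¹) ξ)‖ = ‖ξ‖
    rw [norm_l b B, norm_r b B]

theorem conjOp_apply (B : IsHilbertBimodule (IsNormalPositive (LK b)) l r) (g : G) (ξ : E) :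
    conjOp b B g ξ = l (La b g) (r (La b g⁻¹) ξ) := rfl

/-- the conjugation representation of the group on a bimodule -/
noncomputable def conjRep (B : IsHilbertBimodule (IsNormalPositive (LK b)) l r) :
    G →* (E ≃ₗᵢ[ℂ] E) where
  toFun g := conjOp b B g
  map_one' := by
    ext ξ
    rw [conjOp_apply, inv_one, La_one, B.left.one, B.right.one]
    rfl
  map_mul' g h := by
    ext ξ
    show conjOp b B (g * h) ξ = conjOp b B g (conjOp b B h ξ)
    rw [conjOp_apply, conjOp_apply, conjOp_apply, mul_inv_rev, ← La_mul, ← La_mul, B.left_mul,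
      B.right_mul, B.comm (La b h)]

/-- The group von Neumann algebra of a Kazhdan group has property (T). -/
theorem propertyT_LK (hG : IsKazhdan G) : HasPropertyT (LK b) := by
  classical
  obtain ⟨S, ε, hε, hS⟩ := hG
  refine ⟨S.image (La b), ε, hε, ?_⟩
  rintro E _ _ _ l r B ⟨ξ, hξ, hsm⟩
  obtain ⟨η, hη, hfix⟩ := hS E (conjRep b B) ⟨ξ, hξ, fun s hs => by
    have h1 := hsm (La b s) (Finset.mem_image_of_mem _ hs)
    have h2 : r (La b s⁻¹) (l (La b s) ξ - r (La b s) ξ) = conjRep b B s ξ - ξ := by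
      rw [(B.right.linear _).map_sub, r_inv' b B, ← B.comm]
      rfl
    rw [← h2, norm_r b B]
    exact h1⟩
  refine ⟨η, hη, central_of_group b B η fun g => ?_⟩
  have h1 : l (La b g) (r (La b g⁻¹) η) = η := hfix g
  rw [B.comm] at h1
  have h2 := congrArg (fun v => r (La b g) v) h1
  simp only [r_inv b B] at h2
  exact h2

/-- The property with unitary operators implies the property with linear isometries. -/
theorem isKazhdan_of (G : Type) [Group G] (h : Grp.IsKazhdan G) : IsKazhdan G := by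
  obtain ⟨S, ε, hε, hS⟩ := h
  refine ⟨S, ε, hε, ?_⟩
  rintro E _ _ _ ρ ⟨ξ, hξ, hsm⟩
  let ρ' : G →* unitary (E →L[ℂ] E) :=
    (Unitary.linearIsometryEquiv (𝕜 := ℂ) (H := E)).symm.toMonoidHom.comp ρ
  have hρ : ∀ g v, ((ρ' g : unitary (E →L[ℂ] E)) : E →L[ℂ] E) v = ρ g v := fun g v => rfl
  exact hS E ρ' ⟨ξ, hξ, fun s hs => hsm s hs⟩

end

end Pool.Agent.H734R2
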