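import Mathlib
import Pool.Agent.H734R2.Defs
import Pool.Agent.H734R2.PropT
import Pool.Agent.Helper278.CEPull

set_option autoImplicit false
set_option linter.unusedSectionVars false

open scoped InnerProductSpace Topology ComplexOrder
open Filter

namespace Pool.Agent.H734R2

open Pool.Agent.Helper278 Pool.Agent.Helper278.RG
open Pool.Agent.Helper278.CE (sb coef_sb sb_self sb_ne pull pull_apply push push_mem push_ne
  pull_push norm_push)

section cosets

variable {X Y : Type} [Group X] [Group Y] (i : X →* Y) (hi : Function.Injective i)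

include hi in
theorem shift_inj (c : Y) : Function.Injective (fun h => i h * c) :=
  fun _ _ h => hi (mul_right_cancel h)

theorem push_sb (j : X → Y) (hj : Function.Injective j) (h : X) :
    push j hj (sb X h) = sb Y (j h) := by
  ext g
  by_cases hg : ∃ v, g = j v
  · obtain ⟨v, rfl⟩ := hg
    rw [push_mem]
    by_cases hv : h = v
    · rw [hv, sb_self, sb_self]
    · rw [sb_ne _ _ hv, sb_ne _ _ (fun h' => hv (hj h'))]
  · push Not at hg
    rw [push_ne _ _ _ _ hg, sb_ne _ _ (fun h' => hg h h'.symm)]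

theorem pull_sb (j : X → Y) (hj : Function.Injective j) (h : X) :
    pull j hj (sb Y (j h)) = sb X h := by
  rw [← push_sb j hj, pull_push]

theorem pull_sb_ne (j : X → Y) (hj : Function.Injective j) (g : Y) (hg : ∀ v, g ≠ j v) :
    pull j hj (sb Y g) = 0 := by
  ext v
  rw [pull_apply, sb_ne _ _ (hg v)]
  rfl

theorem inner_push (j : X → Y) (hj : Function.Injective j) (ξ : EllTwo X) (η : EllTwo Y) :
    ⟪push j hj ξ, η⟫_ℂ = ⟪ξ, pull j hj η⟫_ℂ := by
  rw [push, ContinuousLinearMap.adjoint_inner_left]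

theorem inner_push' (j : X → Y) (hj : Function.Injective j) (ξ : EllTwo X) (η : EllTwo Y) :
    ⟪η, push j hj ξ⟫_ℂ = ⟪pull j hj η, ξ⟫_ℂ := by
  rw [push, ContinuousLinearMap.adjoint_inner_right]

/-- the isometry `δ_h ↦ δ_{i(h) c}` -/
noncomputable def Vc (c : Y) : EllTwo X →L[ℂ] EllTwo Y := push (fun h => i h * c) (shift_inj i hi c)

/-- its adjoint -/
noncomputable def Wc (c : Y) : EllTwo Y →L[ℂ] EllTwo X := pull (fun h => i h * c) (shift_inj i hi c)

theorem Wc_Vc (c : Y) (ξ : EllTwo X) : Wc i hi c (Vc i hi c ξ) = ξ := pull_push _ _ _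

theorem inner_Vc (c : Y) (ξ : EllTwo X) (η : EllTwo Y) :
    ⟪Vc i hi c ξ, η⟫_ℂ = ⟪ξ, Wc i hi c η⟫_ℂ := inner_push _ _ _ _

theorem inner_Vc' (c : Y) (ξ : EllTwo X) (η : EllTwo Y) :
    ⟪η, Vc i hi c ξ⟫_ℂ = ⟪Wc i hi c η, ξ⟫_ℂ := inner_push' _ _ _ _

theorem hasSum_coset (T : Set Y)
    (hT : Function.Bijective (fun p : T × X => i p.2 * (p.1 : Y))) (ξ : EllTwo Y) :
    HasSum (fun c : T => Vc i hi (c : Y) (Wc i hi (c : Y) ξ)) ξ := by
  have h1 := (sb Y).hasSum_repr ξ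
  let e : T × X ≃ Y := Equiv.ofBijective _ hT
  have h2 := (e.hasSum_iff).2 h1
  refine HasSum.prod_fiberwise h2 fun c => ?_
  have h3 := (sb X).hasSum_repr (Wc i hi (c : Y) ξ)
  have h4 := h3.mapL (Vc i hi (c : Y))
  refine h4.congr_fun fun h => ?_
  rw [map_smul]
  show (sb Y).repr ξ (i h * (c : Y)) • sb Y (i h * (c : Y)) = _ • push _ _ (sb X h)
  rw [push_sb, HilbertBasis.repr_apply_apply, HilbertBasis.repr_apply_apply, coef_sb, coef_sb]
  rfl

include hi in
/-- a set of representatives of the right cosets -/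
theorem exists_transversal : ∃ T : Set Y,
    Function.Bijective (fun p : T × X => i p.2 * (p.1 : Y)) := by
  obtain ⟨T, hT, -⟩ := Subgroup.exists_isComplement_right i.range (1 : Y)
  refine ⟨T, ?_, ?_⟩
  · rintro ⟨c, h⟩ ⟨c', h'⟩ he
    have h1 := hT.1 (a₁ := (⟨i h, ⟨h, rfl⟩⟩, c)) (a₂ := (⟨i h', ⟨h', rfl⟩⟩, c')) he
    have h2 : c = c' := congrArg Prod.snd h1
    have h3 : i h = i h' := congrArg (fun p => ((p.1 : i.range) : Y)) h1
    rw [h2, hi h3]
  · intro y
    obtain ⟨⟨⟨g, ⟨h, hg⟩⟩, c⟩, hy⟩ := hT.2 y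
    refine ⟨(c, h), ?_⟩
    show i h * (c : Y) = y
    rw [hg]
    exact hy

end cosets

section normal

variable {H : Type} [NormedAddCommGroup H] [InnerProductSpace ℂ H] [CompleteSpace H]

/-- A countable sum of vector functionals is a normal positive functional. -/
theorem isNormalPositive_of_countable (N : VonNeumannAlgebra H) {J : Type} [Countable J]
    (v : J → H) (hv : Summable fun j => ‖v j‖ ^ 2) (ω : Elt N → ℂ)
    (hω : ∀ x : Elt N, ω x = ∑' j, ⟪v j, (x : H →L[ℂ] H) (v j)⟫_ℂ) : IsNormalPositive N ω := by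
  obtain ⟨e, he⟩ := exists_injective_nat J
  refine ⟨Function.extend e v 0, ?_, fun x => ?_⟩
  · have h1 : (fun k => ‖Function.extend e v 0 k‖ ^ 2) = Function.extend e (fun j => ‖v j‖ ^ 2) 0 := by
      funext k
      by_cases hk : ∃ j, e j = k
      · obtain ⟨j, rfl⟩ := hk
        rw [he.extend_apply, he.extend_apply]
      · rw [Function.extend_apply' _ _ _ hk, Function.extend_apply' _ _ _ hk]
        simp
    rw [h1, summable_extend_zero he]
    exact hv
  · have h1 : (fun k => ⟪Function.extend e v 0 k, (x : H →L[ℂ] H) (Function.extend e v 0 k)⟫_ℂ) =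
        Function.extend e (fun j => ⟪v j, (x : H →L[ℂ] H) (v j)⟫_ℂ) 0 := by
      funext k
      by_cases hk : ∃ j, e j = k
      · obtain ⟨j, rfl⟩ := hk
        rw [he.extend_apply, he.extend_apply]
      · rw [Function.extend_apply' _ _ _ hk, Function.extend_apply' _ _ _ hk]
        simp
    rw [h1, tsum_extend_zero he]
    exact hω x

/-- A square summable family of vectors defines a normal positive functional. -/
theorem isNormalPositive_of_summable (N : VonNeumannAlgebra H) {J : Type}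
    (v : J → H) (hv : Summable fun j => ‖v j‖ ^ 2) (ω : Elt N → ℂ)
    (hω : ∀ x : Elt N, ω x = ∑' j, ⟪v j, (x : H →L[ℂ] H) (v j)⟫_ℂ) : IsNormalPositive N ω := by
  have hc : (Function.support fun j => ‖v j‖ ^ 2).Countable := hv.countable_support
  have : Countable (Function.support fun j => ‖v j‖ ^ 2) := hc.to_subtype
  refine isNormalPositive_of_countable N (fun j : Function.support fun j => ‖v j‖ ^ 2 => v j)
    (hv.subtype _) ω fun x => ?_
  rw [hω]
  refine (tsum_subtype_eq_of_support_subset (f := fun j => ⟪v j, (x : H →L[ℂ] H) (v j)⟫_ℂ)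
    fun j hj => ?_).symm
  intro h0
  apply hj
  have h1 : v j = 0 := by
    have h2 : ‖v j‖ ^ 2 = 0 := h0
    exact norm_eq_zero.1 (pow_eq_zero_iff two_ne_zero |>.1 h2)
  show ⟪v j, (x : H →L[ℂ] H) (v j)⟫_ℂ = 0
  rw [h1, inner_zero_left]

/-- A map of von Neumann algebras is normal if it pulls back vector functionals to sums of
vector functionals of the same total mass. -/
theorem normal_of_vector {H' : Type} [NormedAddCommGroup H'] [InnerProductSpace ℂ H']
    [CompleteSpace H'] (N : VonNeumannAlgebra H) (M : VonNeumannAlgebra H') {J : Type}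
    (φ : Elt N → Elt M) (v : H' → J → H)
    (hv : ∀ ξ, HasSum (fun j => ‖v ξ j‖ ^ 2) (‖ξ‖ ^ 2))
    (hφ : ∀ (x : Elt N) (ξ : H'), HasSum (fun j => ⟪v ξ j, (x : H →L[ℂ] H) (v ξ j)⟫_ℂ)
      ⟪ξ, (φ x : H' →L[ℂ] H') ξ⟫_ℂ) (ω : Elt M → ℂ) (hω : IsNormalPositive M ω) :
    IsNormalPositive N (fun x => ω (φ x)) := by
  obtain ⟨ξ, hξ, hωξ⟩ := hω
  have hs : Summable fun p : ℕ × J => ‖v (ξ p.1) p.2‖ ^ 2 := by
    rw [summable_prod_of_nonneg (fun p => sq_nonneg _)]
    refine ⟨fun k => (hv (ξ k)).summable, ?_⟩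
    refine hξ.congr fun k => ?_
    exact ((hv (ξ k)).tsum_eq).symm
  refine isNormalPositive_of_summable N (fun p : ℕ × J => v (ξ p.1) p.2) hs _ fun x => ?_
  have hs2 : Summable fun p : ℕ × J => ⟪v (ξ p.1) p.2, (x : H →L[ℂ] H) (v (ξ p.1) p.2)⟫_ℂ := by
    refine Summable.of_norm_bounded (hs.mul_left ‖(x : H →L[ℂ] H)‖) fun p => ?_
    refine (norm_inner_le_norm _ _).trans ?_
    have h1 := (x : H →L[ℂ] H).le_opNorm (v (ξ p.1) p.2)
    calc ‖v (ξ p.1) p.2‖ * ‖(x : H →L[ℂ] H) (v (ξ p.1) p.2)‖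
        ≤ ‖v (ξ p.1) p.2‖ * (‖(x : H →L[ℂ] H)‖ * ‖v (ξ p.1) p.2‖) :=
          mul_le_mul_of_nonneg_left h1 (norm_nonneg _)
      _ = ‖(x : H →L[ℂ] H)‖ * ‖v (ξ p.1) p.2‖ ^ 2 := by ring
  rw [hs2.tsum_prod, hωξ]
  refine tsum_congr fun k => ?_
  exact ((hφ x (ξ k)).tsum_eq).symm

end normal

section coset2

variable {X Y : Type} [Group X] [Group Y] (i : X →* Y) (hi : Function.Injective i)

theorem hasSum_inner (T : Set Y)
    (hT : Function.Bijective (fun p : T × X => i p.2 * (p.1 : Y)))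
    (y : EllTwo Y →L[ℂ] EllTwo Y) (z : Y → EllTwo X →L[ℂ] EllTwo X)
    (hyz : ∀ c ζ, y (Vc i hi c ζ) = Vc i hi c (z c ζ)) (ξ ζ : EllTwo Y) :
    HasSum (fun c : T => ⟪Wc i hi (c : Y) ξ, z c (Wc i hi (c : Y) ζ)⟫_ℂ) ⟪ξ, y ζ⟫_ℂ := by
  have h1 := (hasSum_coset i hi T hT ζ).mapL ((innerSL ℂ ξ).comp y)
  refine h1.congr_fun fun c => ?_
  show _ = ⟪ξ, y (Vc i hi (c : Y) (Wc i hi (c : Y) ζ))⟫_ℂ
  rw [hyz, inner_Vc']

theorem hasSum_norm (T : Set Y)
    (hT : Function.Bijective (fun p : T × X => i p.2 * (p.1 : Y))) (ξ : EllTwo Y) :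
    HasSum (fun c : T => ‖Wc i hi (c : Y) ξ‖ ^ 2) (‖ξ‖ ^ 2) := by
  have h1 := hasSum_inner i hi T hT 1 (fun _ => 1) (fun c ζ => rfl) ξ ξ
  have h2 := Complex.hasSum_re h1
  have h3 : ∀ (Z : Type) (v : EllTwo Z), (⟪v, (1 : EllTwo Z →L[ℂ] EllTwo Z) v⟫_ℂ).re = ‖v‖ ^ 2 := by
    intro Z v
    show (⟪v, v⟫_ℂ).re = _
    exact inner_self_eq_norm_sq (𝕜 := ℂ) v
  rw [h3] at h2
  exact h2.congr_fun fun c => (h3 _ _).symm

end coset2

end Pool.Agent.H734R2
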