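import Mathlib
import Pool.Agent.H734R2.Defs
import Pool.Agent.H734R2.Coset

set_option autoImplicit false
set_option linter.unusedSectionVars false

open scoped InnerProductSpace Topology ComplexOrder
open Filter

namespace Pool.Agent.H734R2

open Pool.Agent.Helper278 Pool.Agent.Helper278.RG
open Pool.Agent.Helper278.CE (sb coef_sb sb_self sb_ne pull pull_apply push push_mem push_ne
  pull_push norm_push)

theorem ext_sb {X Y : Type} {A B : EllTwo X →L[ℂ] EllTwo Y} (h : ∀ v, A (sb X v) = B (sb X v)) :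
    A = B := by
  have hd : Dense ((Submodule.span ℂ (Set.range (sb X)) : Submodule ℂ (EllTwo X)) :
      Set (EllTwo X)) := by
    rw [Submodule.dense_iff_topologicalClosure_eq_top]
    exact (sb X).dense_span
  refine ContinuousLinearMap.ext_on hd ?_
  rintro _ ⟨g, rfl⟩
  exact h g

theorem Vc_sb {X Y : Type} [Group X] [Group Y] (i : X →* Y) (hi : Function.Injective i) (c : Y)
    (v : X) : Vc i hi c (sb X v) = sb Y (i v * c) := push_sb _ _ v

theorem Vc_mem {X Y : Type} [Group X] [Group Y] (i : X →* Y) (hi : Function.Injective i) (c : Y)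
    (ξ : EllTwo X) (v : X) : Vc i hi c ξ (i v * c) = ξ v := push_mem _ _ ξ v

theorem Vc_ne {X Y : Type} [Group X] [Group Y] (i : X →* Y) (hi : Function.Injective i) (c : Y)
    (ξ : EllTwo X) (g : Y) (hg : ∀ v, g ≠ i v * c) : Vc i hi c ξ g = 0 := push_ne _ _ ξ g hg

theorem Wc_apply {X Y : Type} [Group X] [Group Y] (i : X →* Y) (hi : Function.Injective i) (c : Y)
    (ξ : EllTwo Y) (v : X) : Wc i hi c ξ v = ξ (i v * c) := rfl

theorem norm_Vc {X Y : Type} [Group X] [Group Y] (i : X →* Y) (hi : Function.Injective i) (c : Y)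
    (ξ : EllTwo X) : ‖Vc i hi c ξ‖ = ‖ξ‖ := norm_push _ _ ξ

section

variable {H : Type} [Group H] (F : Subgroup H) [Finite F]

/-- the conditional expectation onto the group algebra of a finite subgroup -/
noncomputable def EF : Elt (LK (sb H)) →ₗ[ℂ] Elt (LK (sb H)) where
  toFun x := ∑ᶠ f : F, ((x : EllTwo H →L[ℂ] EllTwo H) (sb H 1)) (f : H) • La (sb H) (f : H)
  map_add' x y := by
    rw [← finsum_add_distrib (Set.toFinite _) (Set.toFinite _)]
    refine finsum_congr fun f => ?_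
    rw [← add_smul]
    rfl
  map_smul' c x := by
    rw [RingHom.id_apply, smul_finsum' _ (Set.toFinite _)]
    refine finsum_congr fun f => ?_
    rw [smul_smul]
    rfl

variable [Fintype F]

theorem EF_apply (x : Elt (LK (sb H))) : EF F x =
    ∑ f : F, ((x : EllTwo H →L[ℂ] EllTwo H) (sb H 1)) (f : H) • La (sb H) (f : H) := by
  show ∑ᶠ f : F, ((x : EllTwo H →L[ℂ] EllTwo H) (sb H 1)) (f : H) • La (sb H) (f : H) = _
  rw [finsum_eq_sum_of_fintype]

theorem EF_vec (x : Elt (LK (sb H))) (h : H) : (EF F x : EllTwo H →L[ℂ] EllTwo H) (sb H h) =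
    ∑ f : F, ((x : EllTwo H →L[ℂ] EllTwo H) (sb H 1)) (f : H) • sb H ((f : H) * h) := by
  rw [EF_apply]
  have h1 : ((∑ f : F, ((x : EllTwo H →L[ℂ] EllTwo H) (sb H 1)) (f : H) • La (sb H) (f : H) :
      Elt (LK (sb H))) : EllTwo H →L[ℂ] EllTwo H) =
      ∑ f : F, ((x : EllTwo H →L[ℂ] EllTwo H) (sb H 1)) (f : H) • lamK (sb H) (f : H) := by
    rw [AddSubmonoidClass.coe_finsetSum]
    rfl
  rw [h1, sum_apply]
  refine Finset.sum_congr rfl fun f _ => ?_
  rw [smul_apply, lamK_basis]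

/-- coefficients of the expectation -/
theorem EF_coef_mem (x : Elt (LK (sb H))) (g h : H) (hg : g * h⁻¹ ∈ F) :
    ((EF F x : EllTwo H →L[ℂ] EllTwo H) (sb H h)) g =
      ((x : EllTwo H →L[ℂ] EllTwo H) (sb H h)) g := by
  rw [← coef_sb g, ← coef_sb g, coef_apply (sb H) _ x.2, EF_vec, inner_sum]
  rw [Finset.sum_eq_single (⟨g * h⁻¹, hg⟩ : F)]
  · rw [inner_smul_right, inv_mul_cancel_right, inner_bb_self, mul_one, coef_sb]
  · intro f _ hf
    rw [inner_smul_right, inner_bb _ _ _ (fun h' => hf (Subtype.ext (by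
      show (f : H) = g * h⁻¹
      rw [h', mul_inv_cancel_right]))), mul_zero]
  · intro h'
    exact absurd (Finset.mem_univ _) h'

theorem EF_coef_ne (x : Elt (LK (sb H))) (g h : H) (hg : g * h⁻¹ ∉ F) :
    ((EF F x : EllTwo H →L[ℂ] EllTwo H) (sb H h)) g = 0 := by
  rw [← coef_sb g, EF_vec, inner_sum]
  refine Finset.sum_eq_zero fun f _ => ?_
  rw [inner_smul_right, inner_bb _ _ _ (fun h' => hg (by
      rw [h', mul_inv_cancel_right]
      exact f.2)), mul_zero]

theorem EF_Vc (x : Elt (LK (sb H))) (c : H) (ζ : EllTwo F) :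
    (EF F x : EllTwo H →L[ℂ] EllTwo H) (Vc F.subtype F.subtype_injective c ζ) =
      Vc F.subtype F.subtype_injective c (Wc F.subtype F.subtype_injective c
        ((x : EllTwo H →L[ℂ] EllTwo H) (Vc F.subtype F.subtype_injective c ζ))) := by
  have key : (EF F x : EllTwo H →L[ℂ] EllTwo H).comp (Vc F.subtype F.subtype_injective c) =
      (Vc F.subtype F.subtype_injective c).comp ((Wc F.subtype F.subtype_injective c).comp
        ((x : EllTwo H →L[ℂ] EllTwo H).comp (Vc F.subtype F.subtype_injective c))) := by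
    refine ext_sb fun f => ?_
    show (EF F x : EllTwo H →L[ℂ] EllTwo H) (Vc F.subtype F.subtype_injective c (sb F f)) =
      Vc F.subtype F.subtype_injective c (Wc F.subtype F.subtype_injective c
        ((x : EllTwo H →L[ℂ] EllTwo H) (Vc F.subtype F.subtype_injective c (sb F f))))
    rw [Vc_sb]
    ext g
    by_cases hg : ∃ v : F, g = F.subtype v * c
    · obtain ⟨v, rfl⟩ := hg
      rw [Vc_mem, Wc_apply]
      refine EF_coef_mem F x _ _ ?_
      show (v : H) * c * ((f : H) * c)⁻¹ ∈ F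
      have : (v : H) * c * ((f : H) * c)⁻¹ = v * (f : H)⁻¹ := by group
      rw [this]
      exact F.mul_mem v.2 (F.inv_mem f.2)
    · push Not at hg
      rw [Vc_ne _ _ _ _ _ hg]
      refine EF_coef_ne F x _ _ fun h' => ?_
      have h2 : g * ((f : H) * c)⁻¹ * (f : H) ∈ F := F.mul_mem h' f.2
      refine hg ⟨_, h2⟩ ?_
      show g = g * ((f : H) * c)⁻¹ * (f : H) * c
      group
  exact congrArg (fun A : EllTwo F →L[ℂ] EllTwo H => A ζ) key

theorem EF_hasSum (x : Elt (LK (sb H))) (T : Set H)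
    (hT : Function.Bijective (fun p : T × F => F.subtype p.2 * (p.1 : H))) (ξ ζ : EllTwo H) :
    HasSum (fun c : T => ⟪Vc F.subtype F.subtype_injective c
        (Wc F.subtype F.subtype_injective c ξ), (x : EllTwo H →L[ℂ] EllTwo H)
          (Vc F.subtype F.subtype_injective c (Wc F.subtype F.subtype_injective c ζ))⟫_ℂ)
      ⟪ξ, (EF F x : EllTwo H →L[ℂ] EllTwo H) ζ⟫_ℂ := by
  have h1 := hasSum_inner F.subtype F.subtype_injective T hT
    (EF F x : EllTwo H →L[ℂ] EllTwo H)
    (fun c => (Wc F.subtype F.subtype_injective c).comp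
        ((x : EllTwo H →L[ℂ] EllTwo H).comp (Vc F.subtype F.subtype_injective c)))
    (fun c ζ => EF_Vc F x c ζ) ξ ζ
  refine h1.congr_fun fun c => ?_
  rw [inner_Vc]
  rfl

theorem EF_normal (ω : Elt (LK (sb H)) → ℂ) (hω : IsNormalPositive (LK (sb H)) ω) :
    IsNormalPositive (LK (sb H)) fun x => ω (EF F x) := by
  obtain ⟨T, hT⟩ := exists_transversal F.subtype F.subtype_injective
  refine normal_of_vector (LK (sb H)) (LK (sb H)) (EF F)
    (fun ξ (c : T) => Vc F.subtype F.subtype_injective c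
        (Wc F.subtype F.subtype_injective c ξ)) (fun ξ => ?_) (fun x ξ => ?_) ω hω
  · refine (hasSum_norm F.subtype F.subtype_injective T hT ξ).congr_fun fun c => ?_
    rw [norm_Vc]
  · exact EF_hasSum F x T hT ξ ξ

theorem EF_cp' (n : ℕ) (x : Fin n → Elt (LK (sb H))) (ξ : Fin n → EllTwo H) :
    0 ≤ ∑ i, ∑ j, ⟪ξ i, ((EF F (star (x i) * x j) : Elt (LK (sb H))) :
      EllTwo H →L[ℂ] EllTwo H) (ξ j)⟫_ℂ := by
  obtain ⟨T, hT⟩ := exists_transversal F.subtype F.subtype_injective
  have h1 : HasSum (fun c : T => ∑ i, ∑ j, ⟪Vc F.subtype F.subtype_injective c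
        (Wc F.subtype F.subtype_injective c (ξ i)),
          ((star (x i) * x j : Elt (LK (sb H))) : EllTwo H →L[ℂ] EllTwo H)
          (Vc F.subtype F.subtype_injective c (Wc F.subtype F.subtype_injective c (ξ j)))⟫_ℂ)
      (∑ i, ∑ j, ⟪ξ i, ((EF F (star (x i) * x j) : Elt (LK (sb H))) :
        EllTwo H →L[ℂ] EllTwo H) (ξ j)⟫_ℂ) :=
    hasSum_sum fun i _ => hasSum_sum fun j _ => EF_hasSum F _ T hT _ _
  refine h1.nonneg fun c => ?_
  have h2 : ∑ i, ∑ j, ⟪Vc F.subtype F.subtype_injective c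
        (Wc F.subtype F.subtype_injective c (ξ i)),
          ((star (x i) * x j : Elt (LK (sb H))) : EllTwo H →L[ℂ] EllTwo H)
          (Vc F.subtype F.subtype_injective c (Wc F.subtype F.subtype_injective c (ξ j)))⟫_ℂ =
      ⟪∑ i, (x i : EllTwo H →L[ℂ] EllTwo H) (Vc F.subtype F.subtype_injective c
        (Wc F.subtype F.subtype_injective c (ξ i))),
        ∑ i, (x i : EllTwo H →L[ℂ] EllTwo H) (Vc F.subtype F.subtype_injective c
        (Wc F.subtype F.subtype_injective c (ξ i)))⟫_ℂ := by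
    rw [sum_inner]
    refine Finset.sum_congr rfl fun i _ => ?_
    rw [inner_sum]
    refine Finset.sum_congr rfl fun j _ => ?_
    rw [← ContinuousLinearMap.adjoint_inner_right (x i : EllTwo H →L[ℂ] EllTwo H),
      ← ContinuousLinearMap.star_eq_adjoint]
    rfl
  rw [h2, inner_self_eq_norm_sq_to_K]
  have h3 : ∀ r : ℝ, (0 : ℂ) ≤ ((r : ℂ)) ^ 2 := fun r => by
    rw [← Complex.ofReal_pow]
    exact Complex.zero_le_real.2 (sq_nonneg r)
  exact h3 _

theorem EF_cp : IsCompletelyPositive (TL (sb H)).τ (EF F) := by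
  intro n x y
  refine (EF_cp' F n x fun i => (y i : EllTwo H →L[ℂ] EllTwo H) (sb H 1)).trans_eq ?_
  refine Finset.sum_congr rfl fun i _ => Finset.sum_congr rfl fun j _ => ?_
  rw [TL_apply, mul_assoc, trG_star_mul']
  rfl

theorem EF_one : EF F 1 = 1 := by
  classical
  have h0 : ∀ f : F, ((1 : Elt (LK (sb H))) : EllTwo H →L[ℂ] EllTwo H) (sb H 1) (f : H) =
      if f = 1 then 1 else 0 := by
    intro f
    show sb H 1 (f : H) = _
    by_cases hf : f = 1
    · rw [if_pos hf, hf]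
      exact sb_self _
    · rw [if_neg hf]
      exact sb_ne _ _ (fun h => hf (Subtype.ext h.symm))
  rw [EF_apply]
  simp only [h0, ite_smul, one_smul, zero_smul, Finset.sum_ite_eq', Finset.mem_univ, if_true]
  exact La_one _

theorem EF_trace (x : Elt (LK (sb H))) : (TL (sb H)).τ (EF F x) = (TL (sb H)).τ x := by
  rw [TL_apply, TL_apply, trG_apply, trG_apply, coef_sb, coef_sb]
  refine EF_coef_mem F x 1 1 ?_
  rw [inv_one, mul_one]
  exact F.one_mem

theorem norm2_eq_N2 (x : Elt (LK (sb H))) : norm2 (TL (sb H)).τ x = N2 (sb H) x := n2_TL (sb H) x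

theorem coef_le (x : Elt (LK (sb H))) (g : H) :
    ‖((x : EllTwo H →L[ℂ] EllTwo H) (sb H 1)) g‖ ≤ N2 (sb H) x := by
  rw [← coef_sb g]
  refine (norm_inner_le_norm _ _).trans ?_
  rw [(sb H).orthonormal.1, one_mul]
  rfl

theorem EF_compact : IsCompactOnL2 (TL (sb H)).τ (EF F) := by
  intro ε hε
  have hk : (0 : ℝ) ≤ (Fintype.card F : ℝ) := Nat.cast_nonneg _
  have h1 := (isCompact_closedBall (0 : F → ℂ) 1).totallyBounded
  rw [Metric.totallyBounded_iff] at h1
  obtain ⟨t, ht, hcov⟩ := h1 (ε / (Fintype.card F + 1)) (by positivity)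
  refine ⟨(fun c : F → ℂ => ∑ f : F, c f • La (sb H) (f : H)) '' t, ht.image _, fun x hx => ?_⟩
  rw [norm2_eq_N2] at hx
  have h2 : (fun f : F => ((x : EllTwo H →L[ℂ] EllTwo H) (sb H 1)) (f : H)) ∈
      Metric.closedBall (0 : F → ℂ) 1 := by
    rw [mem_closedBall_zero_iff, pi_norm_le_iff_of_nonneg zero_le_one]
    exact fun f => (coef_le x f).trans hx
  have h3 := hcov h2
  simp only [Set.mem_iUnion, Metric.mem_ball, exists_prop] at h3
  obtain ⟨c, hc, hd⟩ := h3
  refine ⟨_, ⟨c, hc, rfl⟩, ?_⟩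
  rw [norm2_eq_N2]
  have h4 : EF F x - ∑ f : F, c f • La (sb H) (f : H) =
      ∑ f : F, (((x : EllTwo H →L[ℂ] EllTwo H) (sb H 1)) (f : H) - c f) • La (sb H) (f : H) := by
    rw [EF_apply, ← Finset.sum_sub_distrib]
    exact Finset.sum_congr rfl fun f _ => (sub_smul _ _ _).symm
  have h5 : N2 (sb H) (∑ f : F, (((x : EllTwo H →L[ℂ] EllTwo H) (sb H 1)) (f : H) - c f) •
      La (sb H) (f : H)) ≤ ∑ f : F, ‖((x : EllTwo H →L[ℂ] EllTwo H) (sb H 1)) (f : H) - c f‖ := by
    have h6 : ((∑ f : F, (((x : EllTwo H →L[ℂ] EllTwo H) (sb H 1)) (f : H) - c f) •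
        La (sb H) (f : H) : Elt (LK (sb H))) : EllTwo H →L[ℂ] EllTwo H) =
      ∑ f : F, (((x : EllTwo H →L[ℂ] EllTwo H) (sb H 1)) (f : H) - c f) •
        lamK (sb H) (f : H) := by
      rw [AddSubmonoidClass.coe_finsetSum]
      rfl
    unfold N2
    rw [h6, sum_apply]
    refine (norm_sum_le _ _).trans (Finset.sum_le_sum fun f _ => ?_)
    rw [smul_apply, lamK_basis, norm_smul, (sb H).orthonormal.1, mul_one]
  rw [h4]
  refine h5.trans_lt ?_
  have h6 : ∀ f : F, ‖((x : EllTwo H →L[ℂ] EllTwo H) (sb H 1)) (f : H) - c f‖ ≤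
      ε / (Fintype.card F + 1) := by
    intro f
    rw [dist_eq_norm] at hd
    exact (norm_le_pi_norm ((fun f : F => ((x : EllTwo H →L[ℂ] EllTwo H) (sb H 1)) (f : H)) - c)
      f).trans hd.le
  calc _ ≤ ∑ f : F, ε / (Fintype.card F + 1) := Finset.sum_le_sum fun f _ => h6 f
    _ = Fintype.card F * (ε / (Fintype.card F + 1)) := by
        rw [Finset.sum_const, nsmul_eq_mul, Finset.card_univ]
    _ < ε := by
        rw [mul_div_assoc', div_lt_iff₀ (by positivity)]
        nlinarith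

end

theorem haagerup_LK {H : Type} [Group H] (F : ℕ → Subgroup H) (hF : Monotone F)
    (hfin : ∀ n, Finite (F n)) (hex : ∀ h, ∃ n, h ∈ F n) :
    HasHaagerupProperty (LK (sb H)) (TL (sb H)).τ := by
  refine ⟨ℕ, atTop, fun n => EF (F n), inferInstance, fun n => ?_, fun x => ?_⟩
  · have := Fintype.ofFinite (F n)
    exact ⟨(EF (F n)).isLinear, EF_one (F n), EF_trace (F n), fun ω hω => EF_normal (F n) ω hω,
      EF_cp (F n), EF_compact (F n)⟩
  · have h1 := (sb H).hasSum_repr ((x : EllTwo H →L[ℂ] EllTwo H) (sb H 1))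
    let S : ℕ → Finset H := fun n => (Set.toFinite (F n : Set H)).toFinset
    have hS : ∀ n h, h ∈ S n ↔ h ∈ F n := fun n h => by
      show h ∈ (Set.toFinite (F n : Set H)).toFinset ↔ _
      rw [Set.Finite.mem_toFinset]
      rfl
    have hmono : Monotone S := by
      intro m n hmn h hh
      rw [hS] at hh ⊢
      exact hF hmn hh
    have h2 := h1.comp (tendsto_atTop_finset_of_monotone hmono fun h => by
      obtain ⟨n, hn⟩ := hex h
      exact ⟨n, (hS n h).2 hn⟩)
    have h3 := tendsto_iff_norm_sub_tendsto_zero.1 h2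
    refine h3.congr fun n => ?_
    have := Fintype.ofFinite (F n)
    rw [norm2_eq_N2]
    show ‖∑ g ∈ S n, _ - _‖ = ‖(EF (F n) x : EllTwo H →L[ℂ] EllTwo H) (sb H 1) - _‖
    rw [EF_vec, Finset.sum_subtype (S n) (hS n)]
    congr 2
    refine Finset.sum_congr rfl fun f _ => ?_
    rw [mul_one, HilbertBasis.repr_apply_apply, coef_sb]

end Pool.Agent.H734R2
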