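import Mathlib
import Pool.Agent.H734R2.Defs
import Pool.Agent.H734R2.Haag

set_option autoImplicit false
set_option linter.unusedSectionVars false

open scoped InnerProductSpace Topology ComplexOrder BoundedContinuousFunction
open Filter

namespace Pool.Agent.H734R2

open Pool.Agent.Helper278 Pool.Agent.Helper278.RG
open Pool.Agent.Helper278.CE (sb coef_sb sb_self sb_ne)
open Pool.Agent.Helper436.SN (ball_elt)

theorem isStarHom {A B : Type} [Ring A] [StarRing A] [Algebra ℂ A] [Ring B] [StarRing B]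
    [Algebra ℂ B] (f : A →⋆ₐ[ℂ] B) : IsStarHom f :=
  ⟨map_one f, map_add f, map_mul f, fun c x => map_smul f c x, map_star f⟩

section

variable {X Y : Type} [Group X] [Group Y]

theorem TL_La (g : Y) (hg : g ≠ 1) : (TL (sb Y)).τ (La (sb Y) g) = 0 := by
  rw [TL_apply, trG_apply]
  show ⟪sb Y 1, lamK (sb Y) g (sb Y 1)⟫_ℂ = 0
  rw [lamK_basis, mul_one]
  exact inner_bb _ _ _ (Ne.symm hg)

theorem N2_hom (ι : Elt (LK (sb X)) →⋆ₐ[ℂ] Elt (LK (sb Y)))
    (h : ∀ x, (TL (sb Y)).τ (ι x) = (TL (sb X)).τ x) (x : Elt (LK (sb X))) :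
    N2 (sb Y) (ι x) = N2 (sb X) x := by
  rw [← n2_TL, ← n2_TL]
  unfold n2
  rw [← map_star, ← map_mul, h]

theorem hom_Vc (i : X →* Y) (hi : Function.Injective i)
    (ι : Elt (LK (sb X)) →⋆ₐ[ℂ] Elt (LK (sb Y)))
    (h : ∀ x, (TL (sb Y)).τ (ι x) = (TL (sb X)).τ x)
    (hL : ∀ g, ι (La (sb X) g) = La (sb Y) (i g)) (x : Elt (LK (sb X))) (c : Y)
    (ζ : EllTwo X) : (ι x : EllTwo Y →L[ℂ] EllTwo Y) (Vc i hi c ζ) =
      Vc i hi c ((x : EllTwo X →L[ℂ] EllTwo X) ζ) := by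
  have h0 : ∀ g, (ι (La (sb X) g) : EllTwo Y →L[ℂ] EllTwo Y).comp (Vc i hi c) =
      (Vc i hi c).comp (La (sb X) g : EllTwo X →L[ℂ] EllTwo X) := by
    intro g
    refine ext_sb fun v => ?_
    rw [hL]
    show lamK (sb Y) (i g) (Vc i hi c (sb X v)) = Vc i hi c (lamK (sb X) g (sb X v))
    rw [Vc_sb, lamK_basis, lamK_basis, Vc_sb, map_mul i, mul_assoc]
  have hCG : ∀ a ∈ CGsub (sb X), ∀ ζ, (ι a : EllTwo Y →L[ℂ] EllTwo Y) (Vc i hi c ζ) =
      Vc i hi c ((a : EllTwo X →L[ℂ] EllTwo X) ζ) := by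
    rintro a ha ζ
    obtain ⟨v, rfl⟩ := (mem_CGsub (sb X) a).1 ha
    rw [Lop_apply]
    unfold Finsupp.sum
    rw [map_sum, AddSubmonoidClass.coe_finsetSum, AddSubmonoidClass.coe_finsetSum, sum_apply,
      sum_apply, map_sum]
    refine Finset.sum_congr rfl fun g _ => ?_
    rw [map_smul]
    show v.coeff g • ((ι (La (sb X) g) : EllTwo Y →L[ℂ] EllTwo Y).comp (Vc i hi c)) ζ =
      Vc i hi c (v.coeff g • (La (sb X) g : EllTwo X →L[ℂ] EllTwo X) ζ)
    rw [h0, map_smul]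
    rfl
  obtain ⟨a, ha1, ha2, ha3⟩ := exists_approx (sb X) x
  have hb1 : ∀ n, ‖x - a n‖ ≤ ‖x‖ + 2 * (‖x‖ + 1) := fun n =>
    (norm_sub_le _ _).trans (by linarith [ha2 n])
  have hb2 : ∀ n, ‖ι (x - a n)‖ ≤ ‖x‖ + 2 * (‖x‖ + 1) := fun n =>
    (NonUnitalStarAlgHom.norm_apply_le ι _).trans (hb1 n)
  have h1 := strong_of_N2 (sb X) (fun n => x - a n) _ hb1 ha3 ζ
  have h2 := strong_of_N2 (sb Y) (fun n => ι (x - a n)) _ hb2
    (ha3.congr fun n => (N2_hom ι h _).symm) (Vc i hi c ζ)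
  have h3 := h1.add h2
  rw [add_zero] at h3
  have key : ∀ n, ‖(ι x : EllTwo Y →L[ℂ] EllTwo Y) (Vc i hi c ζ) -
      Vc i hi c ((x : EllTwo X →L[ℂ] EllTwo X) ζ)‖ ≤
      ‖((x - a n : Elt (LK (sb X))) : EllTwo X →L[ℂ] EllTwo X) ζ‖ +
        ‖(ι (x - a n) : EllTwo Y →L[ℂ] EllTwo Y) (Vc i hi c ζ)‖ := by
    intro n
    have e : (ι x : EllTwo Y →L[ℂ] EllTwo Y) (Vc i hi c ζ) -
        Vc i hi c ((x : EllTwo X →L[ℂ] EllTwo X) ζ) =
        (ι (x - a n) : EllTwo Y →L[ℂ] EllTwo Y) (Vc i hi c ζ) -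
          Vc i hi c (((x - a n : Elt (LK (sb X))) : EllTwo X →L[ℂ] EllTwo X) ζ) := by
      have e1 : (ι (x - a n) : EllTwo Y →L[ℂ] EllTwo Y) (Vc i hi c ζ) =
          (ι x : EllTwo Y →L[ℂ] EllTwo Y) (Vc i hi c ζ) -
          (ι (a n) : EllTwo Y →L[ℂ] EllTwo Y) (Vc i hi c ζ) := by
        rw [map_sub]
        rfl
      have e2 : ((x - a n : Elt (LK (sb X))) : EllTwo X →L[ℂ] EllTwo X) ζ =
          (x : EllTwo X →L[ℂ] EllTwo X) ζ - (a n : EllTwo X →L[ℂ] EllTwo X) ζ := rfl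
      rw [e1, e2, map_sub (Vc i hi c), hCG _ (ha1 n)]
      abel
    rw [e, add_comm]
    refine (norm_sub_le _ _).trans ?_
    rw [norm_Vc]
  have h4 : ‖(ι x : EllTwo Y →L[ℂ] EllTwo Y) (Vc i hi c ζ) -
      Vc i hi c ((x : EllTwo X →L[ℂ] EllTwo X) ζ)‖ ≤ 0 :=
    ge_of_tendsto h3 (Eventually.of_forall key)
  exact sub_eq_zero.1 (norm_le_zero_iff.1 h4)

/-- An inclusion of groups induces an embedding of the group von Neumann algebras. -/
theorem exists_embed (i : X →* Y) (hi : Function.Injective i) :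
    ∃ ι : Elt (LK (sb X)) →⋆ₐ[ℂ] Elt (LK (sb Y)),
      (∀ g, ι (La (sb X) g) = La (sb Y) (i g)) ∧
      IsEmbedding (LK (sb X)) (LK (sb Y)) (TL (sb X)).τ (TL (sb Y)).τ ι := by
  obtain ⟨ι, h1, h2⟩ := exists_hom (trAlg (TL (sb Y))) (ball_elt (TL (sb Y)))
    (fun g : X => La (sb Y) (i g)) (fun g h => by rw [map_mul, La_mul])
    (by rw [map_one, La_one]) (fun g => by rw [star_La, map_inv]) (fun g hg => by
      refine TL_La _ fun h => hg (hi ?_)
      rw [h, map_one])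
  refine ⟨ι, h2, isStarHom ι, h1, ?_⟩
  obtain ⟨T, hT⟩ := exists_transversal i hi
  intro ω hω
  refine normal_of_vector (LK (sb X)) (LK (sb Y)) ι (fun ξ (c : T) => Wc i hi (c : Y) ξ)
    (fun ξ => hasSum_norm i hi T hT ξ) (fun x ξ => ?_) ω hω
  exact hasSum_inner i hi T hT (ι x : EllTwo Y →L[ℂ] EllTwo Y)
    (fun _ => (x : EllTwo X →L[ℂ] EllTwo X)) (fun c ζ => hom_Vc i hi ι h1 h2 x c ζ) ξ ξ

/-- The embedding is existential if the inclusion of groups is. -/
theorem isExistential_embed (i : X →* Y) (hi : Function.Injective i)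
    (ι : Elt (LK (sb X)) →⋆ₐ[ℂ] Elt (LK (sb Y)))
    (hL : ∀ g, ι (La (sb X) g) = La (sb Y) (i g))
    (hι : ∀ x, (TL (sb Y)).τ (ι x) = (TL (sb X)).τ x)
    (U : Ultrafilter ℕ) (hU : ∀ n, {n} ∉ U) (q : ℕ → (Y →* X))
    (hq1 : ∀ g, ∀ᶠ n in (U : Filter ℕ), q n (i g) = g)
    (hq2 : ∀ g, g ≠ 1 → ∀ᶠ n in (U : Filter ℕ), q n g ≠ 1) :
    IsExistential (LK (sb X)) (LK (sb Y)) U (TL (sb X)).τ (TL (sb Y)).τ ι := by
  obtain ⟨Q, _, _, _, _, π, σ, hπ⟩ := exists_ultrapower (TL (sb X)) U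
  have hu : ∀ g : X, La (sb X) g ∈ unitary (Elt (LK (sb X))) := by
    intro g
    rw [Unitary.mem_iff, star_La, La_mul, La_mul, inv_mul_cancel, mul_inv_cancel, La_one]
    exact ⟨rfl, rfl⟩
  let w : Y → (ℕ →ᵇ Elt (LK (sb X))) := fun g => mkB fun n => ⟨La (sb X) (q n g), hu _⟩
  have hw : ∀ g n, w g n = La (sb X) (q n g) := fun g n => rfl
  have hS := sigma_trAlg hπ
  have hB := CE.ball_ultra hU hπ
  obtain ⟨θ, hθ1, hθ2⟩ := exists_hom hS hB (fun g : Y => π (w g)) (fun g h => by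
      rw [← map_mul]
      congr 1
      ext1 n
      show w (g * h) n = w g n * w h n
      rw [hw, hw, hw, map_mul, La_mul]) (by
      rw [← map_one π]
      congr 1
      ext1 n
      show w 1 n = 1
      rw [hw, map_one, La_one]) (fun g => by
      rw [← map_star]
      congr 1
      ext1 n
      show star (w g n) = w g⁻¹ n
      rw [hw, hw, star_La, map_inv]) (fun g hg => by
      show σ (π (w g)) = 0
      refine tendsto_nhds_unique (hπ.trace (w g)) ?_
      refine tendsto_const_nhds.congr' ?_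
      filter_upwards [hq2 g hg] with n hn
      rw [hw, TL_La _ hn])
  -- the diagonal embedding
  let diag : Elt (LK (sb X)) →⋆ₐ[ℂ] Q :=
    { toFun := fun x => π (BoundedContinuousFunction.const ℕ x)
      map_one' := by
        rw [← map_one π]
        congr 1
      map_mul' := fun x y => by
        rw [← map_mul]
        congr 1
      map_zero' := by
        rw [← map_zero π]
        congr 1
      map_add' := fun x y => by
        rw [← map_add]
        congr 1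
      commutes' := fun c => by
        rw [← AlgHomClass.commutes π]
        congr 1
      map_star' := fun x => by
        rw [← map_star]
        congr 1 }
  have hdiag : ∀ x, diag x = π (BoundedContinuousFunction.const ℕ x) := fun x => rfl
  have hd1 : ∀ x, sigmaL hπ (diag x) = (TL (sb X)).τ x := by
    intro x
    refine tendsto_nhds_unique (hπ.trace (BoundedContinuousFunction.const ℕ x)) ?_
    exact tendsto_const_nhds
  have he : θ.comp ι = diag := by
    refine ext_hom hS (θ.comp ι) diag (fun x => ?_) hd1 (fun g => ?_)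
    · show sigmaL hπ (θ (ι x)) = _
      rw [hθ1, hι]
    · show θ (ι (La (sb X) g)) = _
      rw [hL, hθ2, hdiag]
      have h3 : π (w (i g) - BoundedContinuousFunction.const ℕ (La (sb X) g)) = 0 := by
        rw [hπ.ker]
        refine tendsto_const_nhds.congr' ?_
        filter_upwards [hq1 g] with n hn
        have h4 : (w (i g) - BoundedContinuousFunction.const ℕ (La (sb X) g)) n = 0 := by
          show w (i g) n - La (sb X) g = 0
          rw [hw, hn, sub_self]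
        rw [h4, mul_zero, map_zero]
      rw [map_sub] at h3
      exact sub_eq_zero.1 h3
  refine ⟨Q, inferInstance, inferInstance, inferInstance, CE.plain π, σ, θ,
    CE.plain_tracial hπ, isStarHom θ, fun x => hθ1 x, fun x => ?_⟩
  have h5 := congrArg (fun f : Elt (LK (sb X)) →⋆ₐ[ℂ] Q => f x) he
  have h6 : θ (ι x) = diag x := h5
  rw [h6, hdiag]
  exact (CE.plain_of π (fun _ => x) (BoundedContinuousFunction.const ℕ x) fun n => rfl).symm

end

end Pool.Agent.H734R2
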